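import Mathlib

/-!
# Typed (algebraic) notions for the relative consistency proof

`B` is a complete Boolean algebra; a `B`-real (a name for a subset of `ω`) is a function `ℕ → B`.
-/

universe u

open Cardinal Set

namespace Pool.Agent.Lib.MP_c5d73d_lc.T

/-- Countable chain condition. -/
def CCC (B : Type u) [CompleteBooleanAlgebra B] : Prop :=
  ∀ A : Set B, (∀ a ∈ A, a ≠ ⊥) → A.Pairwise (fun a b => a ⊓ b = ⊥) → A.Countable

/-- `κ` is weakly compact: it is inaccessible and for every family of at most `κ` many subsets of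
a set `K` of size `κ` there is a `κ`-complete proper filter on `K`, containing all complements of
sets of size less than `κ`, which decides every member of the family. -/
structure WeaklyCompact (κ : Cardinal.{u}) : Prop where
  inaccessible : κ.IsInaccessible
  filter : ∀ (K : Type u), #K = κ → ∀ 𝒮 : Set (Set K), #𝒮 ≤ κ →
    ∃ F : Filter K, F.NeBot ∧ CardinalInterFilter F κ ∧ (∀ A : Set K, #A < κ → Aᶜ ∈ F) ∧
      ∀ S ∈ 𝒮, S ∈ F ∨ Sᶜ ∈ F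

section MA

variable {B : Type u} [CompleteBooleanAlgebra B]

/-- A `B`-valued preorder on `N`. -/
structure BPre {N : Type u} (le : N → N → B) : Prop where
  refl : ∀ x, le x x = ⊤
  trans : ∀ x y z, le x y ⊓ le y z ≤ le x z

/-- The `B`-valued preorder is ccc: `B * N` is ccc. -/
def BCCC {N : Type u} (le : N → N → B) : Prop :=
  ∀ A : Set (B × N), (∀ a ∈ A, a.1 ≠ ⊥) →
    A.Pairwise (fun a b => ∀ z, a.1 ⊓ b.1 ⊓ le z a.2 ⊓ le z b.2 = ⊥) → A.Countable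

end MA

/-- Martin's axiom for `B`-valued preorders on sets of size less than `κ` and fewer than `κ` many
`B`-valued dense sets. -/
def TypedMA (κ : Cardinal.{u}) (B : Type u) [CompleteBooleanAlgebra B] : Prop :=
  ∀ (N I : Type u), #N < κ → #I < κ → Nonempty N → ∀ le : N → N → B, BPre le → BCCC le →
    ∀ D : I → N → B, (∀ i x, ⨆ y, D i y ⊓ le y x = ⊤) →
      ∃ G : N → B, (∀ x y, G x ⊓ le x y ≤ G y) ∧
        (∀ x y, G x ⊓ G y ≤ ⨆ z, G z ⊓ le z x ⊓ le z y) ∧ ∀ i, ⨆ x, G x ⊓ D i x = ⊤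

section reals

variable {B : Type u} [CompleteBooleanAlgebra B]

/-- The Boolean value of `a is finite`. -/
def fin (a : ℕ → B) : B := ⨆ n, ⨅ m, ⨅ (_ : n ≤ m), (a m)ᶜ

/-- The real which is `a` on `p` and empty off `p`. -/
def cut (p : B) (a : ℕ → B) : ℕ → B := fun n => p ⊓ a n

/-- (The set of global elements of) a `B`-valued tall P-ideal. -/
structure BTPI (J : Set (ℕ → B)) : Prop where
  fin : ∀ a, fin a = ⊤ → a ∈ J
  mono : ∀ a ∈ J, ∀ b, b ≤ a → b ∈ J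
  sup : ∀ a ∈ J, ∀ b ∈ J, a ⊔ b ∈ J
  glue : ∀ (S : Set B) (a : ℕ → B), (∀ p ∈ S, cut p a ∈ J) → cut (sSup S) a ∈ J
  tall : ∀ a, ∃ b ∈ J, b ≤ a ∧ T.fin b ≤ T.fin a
  pp : ∀ f : ℕ → ℕ → B, (∀ n, f n ∈ J) → ∃ a ∈ J, ∀ n, T.fin (f n \ a) = ⊤

/-- A `B`-valued nonprincipal ultrafilter. -/
structure BUlt (x : (ℕ → B) → B) : Prop where
  inf : ∀ a b, x (a ⊓ b) = x a ⊓ x b
  compl : ∀ a, x aᶜ = (x a)ᶜ
  cut : ∀ p a, x (cut p a) = p ⊓ x a
  fin : ∀ a, T.fin a ≤ (x a)ᶜ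

end reals

/-- The typed covering theorem (T). -/
def TypedStatement : Prop :=
  ∀ (κ : Cardinal.{u}), WeaklyCompact κ → ∀ (B : Type u) [CompleteBooleanAlgebra B],
    CCC B → #B ≤ κ → TypedMA κ B →
      ∀ U : Set (ℕ → B), (∀ a ∈ U, ∀ b, a ≤ b → b ∈ U) → (∀ a ∈ U, ∀ b ∈ U, a ⊓ b ∈ U) →
        (∀ a ∈ U, fin a ≠ ⊤) → ∃ J : Set (ℕ → B), BTPI J ∧ ∀ a ∈ J, a ∉ U

/-- Extension to ultrafilters. -/
def UltStatement : Prop := ∀ (B : Type u) [CompleteBooleanAlgebra B] (G : Set (ℕ → B)),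
  (∀ a ∈ G, ∀ b ∈ G, a ⊓ b ∈ G) → (∀ a ∈ G, fin a = ⊥) →
    ∃ x : (ℕ → B) → B, BUlt x ∧ ∀ a ∈ G, x a = ⊤

/-- Pseudo-intersections. -/
def PseudoStatement : Prop := ∀ (κ : Cardinal.{u}), ℵ₀ < κ → ∀ (B : Type u)
  [CompleteBooleanAlgebra B], CCC B → TypedMA κ B → ∀ (ι : Type u), #ι < κ → ∀ A : ι → ℕ → B,
    (∀ s : Finset ι, fin (s.inf A) = ⊥) → ∃ Z : ℕ → B, fin Z = ⊥ ∧ ∀ i, fin (Z \ A i) = ⊤

/-- Domination, in terms of finite sets. -/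
def DomStatement : Prop := ∀ (κ : Cardinal.{u}), ℵ₀ < κ → ∀ (B : Type u)
  [CompleteBooleanAlgebra B], CCC B → TypedMA κ B → ∀ (ι : Type u), #ι < κ →
    ∀ F : ι → ℕ → ℕ → B, (∀ i n, fin (F i n) = ⊤) → ∃ G : ℕ → ℕ → B, (∀ n, fin (G n) = ⊤) ∧
      ∀ i, (⨆ N : ℕ, ⨅ n, ⨅ (_ : N ≤ n), ⨅ m, F i n m ⇨ G n m) = ⊤

/-- Almost disjoint families. -/
def ADStatement : Prop := ∀ (B : Type u) [CompleteBooleanAlgebra B] (X : ℕ → B),
  ∃ a : (ℕ → Bool) → ℕ → B, (∀ t, a t ≤ X ∧ fin (a t) ≤ fin X) ∧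
    ∀ t s, t ≠ s → fin (a t ⊓ a s) = ⊤

end Pool.Agent.Lib.MP_c5d73d_lc.T
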