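import Pool.Agent.Lib.MP_c5d73d_lc.T.Main
import Pool.Agent.Lib.MP_c5d73d_lc.T.H90.Ult
import Pool.Agent.Lib.MP_c5d73d_lc.T.H39.Dom
import Pool.Agent.Lib.MP_c5d73d_lc.T.H4.AD
import Pool.Agent.Lib.MP_c5d73d_lc.F.TDefs

/-!
# The typed covering theorem in the notation of the project MAC
-/

universe u

open Cardinal Set Filter

namespace Pool.Agent.Lib.MP_c5d73d_lc.T

open Pool.Agent.Lib.MP_100a6c_lc Pool.Agent.Lib.MP_c5d73d_lc.F

/-- The typed covering theorem for a weakly compact cardinal, in the notation of MAC. -/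
def CovtWStatement : Prop := ∀ (κ : Cardinal.{u}), WeaklyCompact κ → ∀ (B : Type u)
  [CompleteBooleanAlgebra B], CCov ℵ₀ B → TMA κ B → #(Rl B) ≤ κ →
    ∀ U : Rl B → B, NU U → ∃ J : Rl B → B, TP J ∧ ∀ a, J a ⊓ U a = ⊥

variable {B : Type u} [CompleteBooleanAlgebra B]

lemma ccc_of_ccov (h : CCov ℵ₀ B) : CCC B := by
  intro A hA hpw
  obtain ⟨t, htA, htc, hsup⟩ := h A
  have h1 : A ⊆ t := by
    intro a ha
    by_contra hat
    apply hA a ha
    have h2 : a ≤ sSup t := hsup ▸ le_sSup ha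
    have h3 : a ⊓ sSup t = ⊥ := by
      rw [inf_sSup_eq]
      refine le_bot_iff.1 (iSup₂_le fun b hb => ?_)
      exact (hpw ha (htA hb) (fun h => hat (h ▸ hb))).le
    rwa [inf_eq_left.2 h2] at h3
  exact (le_aleph0_iff_set_countable.1 htc).mono h1

lemma typedMA_of_tma {κ : Cardinal.{u}} (hκ : ℵ₀ < κ) (h : TMA κ B) : TypedMA κ B := by
  intro N I hN hI hne le hle hccc D hD
  have := hne
  obtain ⟨G, h1, h2, -, h4⟩ := h N le hN hle.refl hle.trans (by
    intro T b q hb hbq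
    have hinj : Function.Injective fun t => (b t, q t) := by
      intro t t' htt
      by_contra hne'
      have h5 := hbq t t' hne'
      have h6 : b t = b t' := congrArg Prod.fst htt
      have h7 : q t = q t' := congrArg Prod.snd htt
      rw [← h6, ← h7, inf_idem] at h5
      apply hb t
      refine le_bot_iff.1 ?_
      rw [← h5]
      refine le_inf le_rfl ?_
      unfold tcomp
      refine le_iSup_of_le (q t) ?_
      rw [hle.refl, inf_top_eq]
      exact le_top
    have h5 : (range fun t => (b t, q t)).Countable := by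
      refine hccc _ ?_ ?_
      · rintro _ ⟨t, rfl⟩
        exact hb t
      · rintro _ ⟨t, rfl⟩ _ ⟨t', rfl⟩ hne' z
        refine le_bot_iff.1 ?_
        rw [← hbq t t' fun h => hne' (h ▸ rfl)]
        refine le_inf (inf_le_left.trans inf_le_left) ?_
        exact le_iSup_of_le z (le_inf (inf_le_left.trans inf_le_right) inf_le_right)
    have h6 : Countable T := by
      have := h5.to_subtype
      exact (Equiv.ofInjective _ hinj).injective.countable
    exact mk_le_aleph0_iff.2 h6) I D hI hD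
  exact ⟨G, h1, h2, h4⟩

/-! ## Translation of finiteness -/

lemma ssub_eq (a b : ℕ → B) : ssub a b = fin (a \ b) := by
  unfold ssub fin
  refine le_antisymm (iSup_mono fun N => le_iInf fun m => le_iInf fun hm => ?_)
    (iSup_mono fun N => le_iInf fun n => ?_)
  · refine (iInf_le _ (m - N)).trans ?_
    rw [Nat.sub_add_cancel hm, Pi.sdiff_apply, _root_.sdiff_eq, compl_inf, compl_compl, himp_eq,
      sup_comm]
  · refine (iInf_le_of_le (n + N) (iInf_le _ (Nat.le_add_left N n))).trans ?_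
    rw [Pi.sdiff_apply, _root_.sdiff_eq, compl_inf, compl_compl, himp_eq, sup_comm]

lemma infi_eq (a : ℕ → B) : infi a = (fin a)ᶜ := by
  unfold infi fin
  simp only [compl_iSup, compl_iInf, compl_compl]
  refine le_antisymm (iInf_mono fun N => iSup_le fun n => ?_)
    (iInf_mono fun N => iSup_le fun m => iSup_le fun hm => ?_)
  · exact le_iSup_of_le (n + N) (le_iSup_of_le (Nat.le_add_left N n) le_rfl)
  · refine le_iSup_of_le (m - N) ?_
    rw [Nat.sub_add_cancel hm]

/-! ## From sets of global elements to `B`-valued ideals -/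

/-- The `B`-valued ideal with global elements `J`. -/
def toJ (J : Set (ℕ → B)) (a : ℕ → B) : B := sSup {p | cut p a ∈ J}

lemma cut_toJ {J : Set (ℕ → B)} (h : BTPI J) (a : ℕ → B) : cut (toJ J a) a ∈ J :=
  h.glue _ _ fun _ hp => hp

lemma le_toJ_iff {J : Set (ℕ → B)} (h : BTPI J) {a : ℕ → B} {p : B} :
    p ≤ toJ J a ↔ cut p a ∈ J := by
  constructor
  · intro hp
    refine h.mono _ (cut_toJ h a) _ fun n => ?_
    exact inf_le_inf_right _ hp
  · intro hp
    exact le_sSup hp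

lemma cut_top (a : ℕ → B) : cut ⊤ a = a := by
  funext n
  exact top_inf_eq _

lemma toJ_eq_top {J : Set (ℕ → B)} (h : BTPI J) {a : ℕ → B} : toJ J a = ⊤ ↔ a ∈ J := by
  rw [← top_le_iff, le_toJ_iff h, cut_top]

lemma tp_toJ {J : Set (ℕ → B)} (h : BTPI J) : TP (toJ J) where
  bot := (toJ_eq_top h).2 (h.fin _ fin_bot)
  sup a b := by
    rw [le_toJ_iff h, cut_sup]
    refine h.sup _ (h.mono _ (cut_toJ h a) _ fun n => ?_) _
      (h.mono _ (cut_toJ h b) _ fun n => ?_)
    · exact inf_le_inf_right _ inf_le_left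
    · exact inf_le_inf_right _ inf_le_right
  mono a b := by
    rw [le_toJ_iff h]
    refine h.of_diff_fin (cut_toJ h b) ?_
    have h1 : fin (cut (ssub a b) (a \ b)) = ⊤ := by
      rw [← le_fin_iff, ssub_eq]
    refine fin_top_of_le (fun n => ?_) h1
    change (ssub a b ⊓ toJ J b ⊓ a n) \ (toJ J b ⊓ b n) ≤ ssub a b ⊓ (a n \ b n)
    rw [_root_.sdiff_eq, _root_.sdiff_eq, compl_inf, inf_sup_left]
    refine sup_le ?_ ?_
    · refine le_trans ?_ bot_le
      rw [← inf_compl_self (toJ J b)]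
      exact inf_le_inf_right _ (inf_le_left.trans inf_le_right)
    · exact le_inf (inf_le_left.trans (inf_le_left.trans inf_le_left))
        (le_inf (inf_le_left.trans inf_le_right) inf_le_right)
  tall X := by
    obtain ⟨Y, hYJ, hYX, hfin⟩ := h.tall X
    refine ⟨Y, hYX, le_inf ?_ ?_⟩
    · rw [infi_eq, infi_eq]
      exact compl_le_compl hfin
    · rw [(toJ_eq_top h).2 hYJ]
      exact le_top
  pp a ha := by
    obtain ⟨b, hbJ, hb⟩ := h.pp a fun n => (toJ_eq_top h).1 (ha n)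
    refine ⟨b, (toJ_eq_top h).2 hbJ, fun n => ?_⟩
    rw [ssub_eq]
    exact hb n

/-! ## The maximum principle for reals in a ccc algebra -/

lemma exists_attain (hB : CCC B) (F : (ℕ → B) → B) (hF : ∀ (p : B) (a b : ℕ → B),
    cut p a = cut p b → p ⊓ F a ≤ F b) : ∃ a, (⨆ b, F b) = F a := by
  obtain ⟨S₀, hS₀, hS₀c, hsup⟩ := hB.exists_countable_sSup (range F)
  have hne : (insert (F ⊥) S₀).Nonempty := insert_nonempty _ _
  obtain ⟨v, hv⟩ := (hS₀c.insert (F ⊥)).exists_eq_range hne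
  have h1 : ∀ n, ∃ a, F a = v n := by
    intro n
    have : v n ∈ insert (F ⊥) S₀ := hv ▸ mem_range_self n
    rcases this with h | h
    · exact ⟨⊥, h.symm⟩
    · exact hS₀ h
  choose a ha using h1
  have hsup' : (⨆ b, F b) = ⨆ n, v n := by
    refine le_antisymm ?_ (iSup_le fun n => ha n ▸ le_iSup F (a n))
    have h2 : (⨆ b, F b) = sSup S₀ := hsup.symm
    rw [h2]
    refine sSup_le fun p hp => ?_
    have : p ∈ range v := hv ▸ mem_insert_of_mem _ hp
    obtain ⟨n, rfl⟩ := this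
    exact le_iSup v n
  let d : ℕ → B := disjointed v
  have hd : Pairwise fun i j => d i ⊓ d j = ⊥ := fun i j hij =>
    disjoint_iff.1 (disjoint_disjointed v hij)
  let c : ℕ → B := ⨆ n, cut (d n) (a n)
  have hc : ∀ n, cut (d n) (a n) = cut (d n) c := by
    intro n
    funext m
    change d n ⊓ a n m = d n ⊓ (⨆ n, cut (d n) (a n)) m
    rw [iSup_apply, inf_iSup_eq]
    refine le_antisymm (le_iSup_of_le n ?_) (iSup_le fun k => ?_)
    · exact le_inf inf_le_left le_rfl
    · by_cases hk : k = n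
      · subst hk
        exact inf_le_right
      · change d n ⊓ (d k ⊓ a k m) ≤ _
        rw [← inf_assoc, hd (Ne.symm hk), bot_inf_eq]
        exact bot_le
  refine ⟨c, le_antisymm ?_ (le_iSup F c)⟩
  rw [hsup', ← iSup_disjointed v]
  refine iSup_le fun n => ?_
  have h3 : d n ≤ F (a n) := (disjointed_le v n).trans (ha n).ge
  exact (le_inf le_rfl h3).trans (hF _ _ _ (hc n))

/-- The typed covering theorem. -/
theorem covtW : CovtWStatement.{u} := by
  intro κ hκ B _ hcc htma hcard U hU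
  have hκ0 : ℵ₀ < κ := hκ.inaccessible.aleph0_lt
  have hB : CCC B := ccc_of_ccov hcc
  have hMA : TypedMA κ B := typedMA_of_tma hκ0 htma
  have hBcard : #B ≤ κ := by
    refine le_trans ?_ hcard
    exact mk_le_of_injective (f := fun (b : B) (_ : ℕ) => b) fun a b h => congrFun h 0
  have hP : PseudoStatement.{u} := H39.pseudo
  have hT := typed H4.ad hP (H39.dom hP) H90.ult κ hκ B hB hBcard hMA
  -- properties of `U`
  have hUmono : ∀ a b : ℕ → B, a ≤ b → U a ≤ U b := by
    intro a b hab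
    have h1 := hU.mono a b
    rwa [ssub_eq, sdiff_eq_bot_iff.2 hab, fin_bot, top_inf_eq] at h1
  have hUfin : ∀ a : ℕ → B, fin a ⊓ U a = ⊥ := by
    intro a
    have h1 := hU.mono a ⊥
    rw [ssub_eq, sdiff_bot] at h1
    have h2 : U ⊥ = ⊥ := by
      have h3 := hU.compl ⊥
      have h4 : U ⊥ ≤ U ⊥ᶜ := hUmono _ _ bot_le
      rw [h3] at h4
      exact le_bot_iff.1 ((le_inf le_rfl h4).trans (by rw [inf_compl_self]))
    rw [h2] at h1
    exact le_bot_iff.1 h1
  have hUcut : ∀ (p : B) (a b : ℕ → B), cut p a = cut p b → p ⊓ U a ≤ U b := by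
    intro p a b hab
    refine le_trans (inf_le_inf_right _ ?_) (hU.mono a b)
    rw [ssub_eq, le_fin_iff]
    have : cut p (a \ b) = ⊥ := by
      funext n
      have h1 : p ⊓ a n = p ⊓ b n := congrFun hab n
      change p ⊓ (a n \ b n) = ⊥
      rw [_root_.sdiff_eq, ← inf_assoc, h1, inf_assoc, inf_compl_self, inf_bot_eq]
    rw [this]
    exact fin_bot
  -- the set of the values at which `U` is covered
  let 𝓑 : Set B := {c | ∃ J : Set (ℕ → B), BTPI J ∧ ∀ a, c ⊓ (toJ J a ⊓ U a) = ⊥}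
  obtain ⟨S₀, hS₀, hS₀c, hsup⟩ := hB.exists_countable_sSup 𝓑
  choose! J hJ hJU using fun c (hc : c ∈ S₀) => hS₀ hc
  have hJw := btpi_biInter hP hκ0 hB hMA S₀ hS₀c J hJ
  set Jw : Set (ℕ → B) := ⋂ c ∈ S₀, J c with hJwdef
  have hw : ∀ a, sSup 𝓑 ⊓ (toJ Jw a ⊓ U a) = ⊥ := by
    intro a
    rw [← hsup, sSup_inf_eq]
    refine le_bot_iff.1 (iSup₂_le fun c hc => ?_)
    rw [← hJU c hc a]
    refine inf_le_inf_left _ (inf_le_inf_right _ ?_)
    refine sSup_le_sSup fun p hp => ?_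
    exact mem_iInter₂.1 hp c hc
  have hwtop : sSup 𝓑 = ⊤ := by
    by_contra hne
    set Γ : B := (sSup 𝓑)ᶜ with hΓ
    have hΓne : Γ ≠ ⊥ := by
      intro h
      apply hne
      rw [← compl_compl (sSup 𝓑), ← hΓ, h, compl_bot]
    obtain ⟨J', hJ', hJ'U⟩ := hT {a | Γ ≤ U a} (fun a ha b hab => le_trans ha (hUmono a b hab))
      (fun a ha b hb => by
        change Γ ≤ U (a ⊓ b)
        rw [hU.inf]
        exact le_inf ha hb)
      (fun a ha hfin => by
        apply hΓne
        have h1 := hUfin a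
        rw [hfin, top_inf_eq] at h1
        exact le_bot_iff.1 (h1 ▸ ha))
    obtain ⟨a, ha⟩ := exists_attain hB (fun a => Γ ⊓ (toJ J' a ⊓ U a)) (by
      intro p a b hab
      refine le_inf (inf_le_right.trans inf_le_left) (le_inf ?_ ?_)
      · rw [le_toJ_iff hJ']
        have h1 : cut (p ⊓ (Γ ⊓ (toJ J' a ⊓ U a))) b =
            cut (p ⊓ (Γ ⊓ (toJ J' a ⊓ U a))) a := by
          generalize Γ ⊓ (toJ J' a ⊓ U a) = X
          rw [inf_comm p X, ← cut_cut X p b, ← cut_cut X p a, hab]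
        rw [h1]
        refine hJ'.mono _ (cut_toJ hJ' a) _ fun n => ?_
        exact inf_le_inf_right _ (inf_le_right.trans (inf_le_right.trans inf_le_left))
      · exact le_trans (inf_le_inf_left _ (inf_le_right.trans inf_le_right)) (hUcut p a b hab))
    by_cases hfull : Γ ≤ toJ J' a ⊓ U a
    · have h1 : cut Γ a ∈ J' := (le_toJ_iff hJ').1 (hfull.trans inf_le_left)
      refine hJ'U _ h1 ?_
      change Γ ≤ U (cut Γ a)
      refine le_trans (le_inf le_rfl (hfull.trans inf_le_right)) (hUcut Γ a (cut Γ a) ?_)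
      rw [cut_cut, inf_idem]
    · have h2 : Γ ⊓ (toJ J' a ⊓ U a)ᶜ ∈ 𝓑 := by
        refine ⟨J', hJ', fun b => ?_⟩
        refine le_bot_iff.1 ?_
        have h3 : Γ ⊓ (toJ J' b ⊓ U b) ≤ Γ ⊓ (toJ J' a ⊓ U a) := by
          have ha' : (⨆ b, Γ ⊓ (toJ J' b ⊓ U b)) = Γ ⊓ (toJ J' a ⊓ U a) := ha
          exact ha' ▸ le_iSup (fun b => Γ ⊓ (toJ J' b ⊓ U b)) b
        calc Γ ⊓ (toJ J' a ⊓ U a)ᶜ ⊓ (toJ J' b ⊓ U b)
            = (Γ ⊓ (toJ J' b ⊓ U b)) ⊓ (toJ J' a ⊓ U a)ᶜ := by
              rw [inf_assoc, inf_comm (toJ J' a ⊓ U a)ᶜ, ← inf_assoc]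
          _ ≤ (toJ J' a ⊓ U a) ⊓ (toJ J' a ⊓ U a)ᶜ :=
              inf_le_inf_right _ (h3.trans inf_le_right)
          _ = ⊥ := inf_compl_self _
      have h4 : Γ ⊓ (toJ J' a ⊓ U a)ᶜ ≤ sSup 𝓑 := le_sSup h2
      have h5 : Γ ⊓ (toJ J' a ⊓ U a)ᶜ = ⊥ := by
        refine le_bot_iff.1 ((le_inf inf_le_left h4).trans ?_)
        rw [hΓ, compl_inf_self]
      apply hfull
      rwa [← _root_.sdiff_eq, sdiff_eq_bot_iff] at h5
  refine ⟨toJ Jw, tp_toJ hJw, fun a => ?_⟩
  have h6 := hw a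
  rwa [hwtop, top_inf_eq] at h6

end Pool.Agent.Lib.MP_c5d73d_lc.T
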