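import Pool.Agent.Lib.MP_c5d73d_lc.T.Defs

/-!
# Calculus of finiteness values, interpolation, suprema in ccc algebras
-/

universe u

open Cardinal Set

namespace Pool.Agent.Lib.MP_c5d73d_lc.T

variable {B : Type u} [CompleteBooleanAlgebra B]

/-- The tail values. -/
def tl (a : ℕ → B) (n : ℕ) : B := ⨅ m, ⨅ (_ : n ≤ m), (a m)ᶜ

lemma fin_eq (a : ℕ → B) : fin a = ⨆ n, tl a n := rfl

lemma tl_mono (a : ℕ → B) : Monotone (tl a) := fun _ _ h =>
  le_iInf fun m => le_iInf fun hm => iInf_le_of_le m (iInf_le _ (h.trans hm))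

lemma fin_anti {a b : ℕ → B} (h : a ≤ b) : fin b ≤ fin a :=
  iSup_mono fun _ => iInf_mono fun m => iInf_mono fun _ => compl_le_compl (h m)

lemma fin_top_of_le {a b : ℕ → B} (h : a ≤ b) (hb : fin b = ⊤) : fin a = ⊤ :=
  top_le_iff.1 (hb ▸ fin_anti h)

lemma fin_bot : fin (⊥ : ℕ → B) = ⊤ := by
  refine top_le_iff.1 (le_iSup_of_le 0 (le_iInf fun m => le_iInf fun _ => ?_))
  simp

lemma fin_top : fin (⊤ : ℕ → B) = ⊥ := by
  refine le_bot_iff.1 (iSup_le fun n => iInf_le_of_le n (iInf_le_of_le le_rfl ?_))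
  simp

lemma fin_sup (a b : ℕ → B) : fin (a ⊔ b) = fin a ⊓ fin b := by
  refine le_antisymm (le_inf (fin_anti le_sup_left) (fin_anti le_sup_right)) ?_
  rw [fin_eq, fin_eq, iSup_inf_iSup]
  refine iSup_le fun ⟨n, m⟩ => le_iSup_of_le (max n m) (le_iInf fun k => le_iInf fun hk => ?_)
  change tl a n ⊓ tl b m ≤ (a k ⊔ b k)ᶜ
  rw [compl_sup]
  exact inf_le_inf (iInf_le_of_le k (iInf_le _ ((le_max_left n m).trans hk)))
    (iInf_le_of_le k (iInf_le _ ((le_max_right n m).trans hk)))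

lemma fin_sup_top {a b : ℕ → B} (ha : fin a = ⊤) (hb : fin b = ⊤) : fin (a ⊔ b) = ⊤ := by
  rw [fin_sup, ha, hb, top_inf_eq]

lemma fin_finset_sup {ι : Type*} (s : Finset ι) (f : ι → ℕ → B) (h : ∀ i ∈ s, fin (f i) = ⊤) :
    fin (s.sup f) = ⊤ := by
  classical
  induction s using Finset.induction_on with
  | empty => rw [Finset.sup_empty]; exact fin_bot
  | insert i s _ ih =>
    rw [Finset.sup_insert]
    exact fin_sup_top (h i (Finset.mem_insert_self _ _))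
      (ih fun j hj => h j (Finset.mem_insert_of_mem hj))

lemma cut_apply (p : B) (a : ℕ → B) (n : ℕ) : cut p a n = p ⊓ a n := rfl

lemma cut_le (p : B) (a : ℕ → B) : cut p a ≤ a := fun _ => inf_le_right

lemma cut_inf (p : B) (a b : ℕ → B) : cut p a ⊓ b = cut p (a ⊓ b) := by
  funext n
  exact inf_assoc _ _ _

lemma cut_sup (p : B) (a b : ℕ → B) : cut p (a ⊔ b) = cut p a ⊔ cut p b := by
  funext n
  exact inf_sup_left _ _ _

lemma cut_cut (p q : B) (a : ℕ → B) : cut p (cut q a) = cut (p ⊓ q) a := by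
  funext n
  exact (inf_assoc _ _ _).symm

lemma cut_mono {p : B} {a b : ℕ → B} (h : a ≤ b) : cut p a ≤ cut p b := fun n =>
  inf_le_inf_left _ (h n)

lemma cut_sup_cut (p : B) (a : ℕ → B) : cut p a ⊔ cut pᶜ a = a := by
  funext n
  change p ⊓ a n ⊔ pᶜ ⊓ a n = a n
  rw [← inf_sup_right, sup_compl_eq_top, top_inf_eq]

lemma tl_cut (p : B) (a : ℕ → B) (n : ℕ) : tl (cut p a) n = pᶜ ⊔ tl a n := by
  unfold tl
  simp only [sup_iInf_eq, cut_apply, compl_inf]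

lemma fin_cut (p : B) (a : ℕ → B) : fin (cut p a) = pᶜ ⊔ fin a := by
  rw [fin_eq, fin_eq]
  simp only [tl_cut]
  refine le_antisymm (iSup_le fun n => sup_le_sup_left (le_iSup (tl a) n) _) (sup_le ?_ ?_)
  · exact le_iSup_of_le 0 le_sup_left
  · exact iSup_mono fun n => le_sup_right

lemma le_fin_iff {p : B} {a : ℕ → B} : p ≤ fin a ↔ fin (cut p a) = ⊤ := by
  rw [fin_cut]
  constructor
  · intro h
    refine top_le_iff.1 ?_
    rw [← compl_sup_eq_top (x := p)]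
    exact sup_le_sup_left h _
  · intro h
    have h1 : p ⊓ (pᶜ ⊔ fin a) = p := by rw [h, inf_top_eq]
    rw [inf_sup_left, inf_compl_self, bot_sup_eq] at h1
    exact inf_eq_left.1 h1

lemma fin_const_top (p : B) : fin (cut p ⊤) = pᶜ := by
  rw [fin_cut, fin_top, sup_bot_eq]

/-- Interpolation for countable families with respect to almost inclusion. -/
lemma interpolate (A D : ℕ → ℕ → B) (h : ∀ m n, fin (A m \ D n) = ⊤) :
    ∃ C : ℕ → B, (∀ m, fin (A m \ C) = ⊤) ∧ ∀ n, fin (C \ D n) = ⊤ := by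
  refine ⟨fun x => ⨆ m, A m x ⊓ ⨅ j, ⨅ (_ : j ≤ m), D j x, fun m => ?_, fun n => ?_⟩
  · refine fin_top_of_le (b := (Finset.range (m + 1)).sup fun j => A m \ D j) ?_
      (fin_finset_sup _ _ fun j _ => h m j)
    intro x
    have h1 : A m x ⊓ (⨅ j, ⨅ (_ : j ≤ m), D j x) ≤
        ⨆ m, A m x ⊓ ⨅ j, ⨅ (_ : j ≤ m), D j x := le_iSup_of_le m le_rfl
    have h2 : (A m \ fun x => ⨆ m, A m x ⊓ ⨅ j, ⨅ (_ : j ≤ m), D j x) x ≤
        A m x ⊓ (⨅ j, ⨅ (_ : j ≤ m), D j x)ᶜ := by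
      rw [Pi.sdiff_apply, _root_.sdiff_eq]
      refine le_inf inf_le_left ?_
      have h3 := compl_le_compl h1
      rw [compl_inf] at h3
      have h4 := (inf_le_inf_left (A m x) h3)
      rw [inf_sup_left, inf_compl_self, bot_sup_eq] at h4
      exact h4.trans inf_le_right
    refine h2.trans ?_
    rw [compl_iInf, inf_iSup_eq]
    refine iSup_le fun j => ?_
    rw [compl_iInf, inf_iSup_eq]
    refine iSup_le fun hj => ?_
    have h5 : (A m \ D j) ≤ (Finset.range (m + 1)).sup fun j => A m \ D j :=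
      Finset.le_sup (f := fun j => A m \ D j) (Finset.mem_range.2 (Nat.lt_succ_of_le hj))
    refine le_trans ?_ (h5 x)
    rw [Pi.sdiff_apply, _root_.sdiff_eq]
  · refine fin_top_of_le (b := (Finset.range n).sup fun m => A m \ D n) ?_
      (fin_finset_sup _ _ fun m _ => h m n)
    intro x
    rw [Pi.sdiff_apply, _root_.sdiff_eq, iSup_inf_eq]
    refine iSup_le fun m => ?_
    by_cases hm : m < n
    · have h5 : (A m \ D n) ≤ (Finset.range n).sup fun m => A m \ D n :=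
        Finset.le_sup (f := fun m => A m \ D n) (Finset.mem_range.2 hm)
      refine le_trans ?_ (h5 x)
      rw [Pi.sdiff_apply, _root_.sdiff_eq]
      exact inf_le_inf_right _ inf_le_left
    · have h6 : (⨅ j, ⨅ (_ : j ≤ m), D j x) ≤ D n x := iInf_le_of_le n (iInf_le _ (not_lt.1 hm))
      refine le_trans ?_ bot_le
      rw [← inf_compl_self (D n x)]
      exact inf_le_inf_right _ (inf_le_right.trans h6)

/-- Interpolation between a countable family and a countable family orthogonal to it. -/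
lemma separate (𝒟 : Set (ℕ → B)) (h𝒟 : 𝒟.Countable) (Q : ℕ → ℕ → B)
    (h : ∀ D ∈ 𝒟, ∀ n, fin (D ⊓ Q n) = ⊤) :
    ∃ C : ℕ → B, (∀ D ∈ 𝒟, fin (D \ C) = ⊤) ∧ ∀ n, fin (C ⊓ Q n) = ⊤ := by
  rcases 𝒟.eq_empty_or_nonempty with rfl | hne
  · refine ⟨⊥, by simp, fun n => ?_⟩
    rw [bot_inf_eq]; exact fin_bot
  · obtain ⟨g, rfl⟩ := h𝒟.exists_eq_range hne
    obtain ⟨C, hC1, hC2⟩ := interpolate g (fun n => (Q n)ᶜ) (by
      intro m n
      have := h _ (mem_range_self m) n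
      rwa [_root_.sdiff_compl])
    refine ⟨C, ?_, fun n => ?_⟩
    · rintro _ ⟨m, rfl⟩
      exact hC1 m
    · have := hC2 n
      rwa [_root_.sdiff_compl] at this

lemma BTPI.of_diff_fin {J : Set (ℕ → B)} (h : BTPI J) {a b : ℕ → B} (ha : a ∈ J)
    (hba : T.fin (b \ a) = ⊤) : b ∈ J := by
  refine h.mono _ (h.sup _ ha _ (h.fin _ hba)) _ ?_
  rw [sup_sdiff_self_right]
  exact le_sup_right

lemma btpi_univ : BTPI (Set.univ : Set (ℕ → B)) where
  fin _ _ := mem_univ _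
  mono _ _ _ _ := mem_univ _
  sup _ _ _ _ := mem_univ _
  glue _ _ _ := mem_univ _
  tall a := ⟨a, mem_univ _, le_rfl, le_rfl⟩
  pp f _ := ⟨⊤, mem_univ _, fun n => by rw [sdiff_top]; exact fin_bot⟩

/-- Maximal antichains exist and are countable under a countable chain condition. -/
lemma exists_max_antichain {α : Type*} (C : Set α) (perp : α → α → Prop)
    (hc : ∀ 𝒜 : Set α, 𝒜 ⊆ C → 𝒜.Pairwise perp → 𝒜.Countable) :
    ∃ 𝒜 : Set α, 𝒜 ⊆ C ∧ 𝒜.Countable ∧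
      ∀ b ∈ C, (∀ a ∈ 𝒜, perp a b ∧ perp b a) → b ∈ 𝒜 := by
  obtain ⟨𝒜, h𝒜⟩ := zorn_subset {𝒜 : Set α | 𝒜 ⊆ C ∧ 𝒜.Pairwise perp} (by
    intro c hcs hchain
    refine ⟨⋃₀ c, ⟨sUnion_subset fun s hs => (hcs hs).1, ?_⟩, fun s hs => subset_sUnion_of_mem hs⟩
    rw [Set.pairwise_sUnion hchain.directedOn]
    exact fun s hs => (hcs hs).2)
  refine ⟨𝒜, h𝒜.prop.1, hc 𝒜 h𝒜.prop.1 h𝒜.prop.2, fun b hb hperp => ?_⟩
  have h1 : insert b 𝒜 ∈ {𝒜 : Set α | 𝒜 ⊆ C ∧ 𝒜.Pairwise perp} := by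
    refine ⟨insert_subset hb h𝒜.prop.1, ?_⟩
    intro x hx y hy hxy
    rcases hx with rfl | hx
    · rcases hy with rfl | hy
      · exact absurd rfl hxy
      · exact (hperp y hy).2
    · rcases hy with rfl | hy
      · exact (hperp x hx).1
      · exact h𝒜.prop.2 hx hy hxy
  exact h𝒜.le_of_ge h1 (subset_insert b 𝒜) (mem_insert b 𝒜)

/-- In a ccc algebra each supremum is a countable supremum. -/
lemma CCC.exists_countable_sSup (hB : CCC B) (S : Set B) :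
    ∃ S₀ ⊆ S, S₀.Countable ∧ sSup S₀ = sSup S := by
  classical
  obtain ⟨𝒜, h𝒜C, h𝒜, hmax⟩ := exists_max_antichain {b : B | b ≠ ⊥ ∧ ∃ p ∈ S, b ≤ p}
    (fun a b => a ⊓ b = ⊥) (fun 𝒜 h1 h2 => hB 𝒜 (fun a ha => (h1 ha).1) h2)
  choose! f hfS hf using fun b (hb : b ∈ 𝒜) => (h𝒜C hb).2
  refine ⟨f '' 𝒜, ?_, h𝒜.image f, le_antisymm (sSup_le_sSup ?_) ?_⟩
  · rintro _ ⟨b, hb, rfl⟩; exact hfS b hb
  · rintro _ ⟨b, hb, rfl⟩; exact hfS b hb
  · refine sSup_le fun p hp => ?_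
    by_contra hcon
    have hc : p ⊓ (sSup (f '' 𝒜))ᶜ ≠ ⊥ := by
      intro h
      apply hcon
      rwa [← _root_.sdiff_eq, sdiff_eq_bot_iff] at h
    have hdis : ∀ a ∈ 𝒜, a ⊓ (p ⊓ (sSup (f '' 𝒜))ᶜ) = ⊥ := by
      intro a ha
      refine le_bot_iff.1 ?_
      have h1 : a ≤ sSup (f '' 𝒜) := (hf a ha).trans (le_sSup ⟨a, ha, rfl⟩)
      calc a ⊓ (p ⊓ (sSup (f '' 𝒜))ᶜ) ≤ sSup (f '' 𝒜) ⊓ (sSup (f '' 𝒜))ᶜ :=
            inf_le_inf h1 inf_le_right
        _ = ⊥ := inf_compl_self _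
    have hmem : p ⊓ (sSup (f '' 𝒜))ᶜ ∈ 𝒜 := hmax _ ⟨hc, p, hp, inf_le_left⟩ fun a ha =>
      ⟨hdis a ha, by rw [inf_comm]; exact hdis a ha⟩
    apply hc
    have := hdis _ hmem
    rwa [inf_idem] at this

namespace BUlt

variable {x : (ℕ → B) → B}

lemma mono (hx : BUlt x) {a b : ℕ → B} (h : a ≤ b) : x a ≤ x b := by
  rw [← inf_eq_left.2 h, hx.inf]; exact inf_le_right

lemma sup (hx : BUlt x) (a b : ℕ → B) : x (a ⊔ b) = x a ⊔ x b := by
  have h := hx.compl (aᶜ ⊓ bᶜ)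
  rw [compl_inf, compl_compl, compl_compl] at h
  rw [h, hx.inf, hx.compl, hx.compl, compl_inf, compl_compl, compl_compl]

lemma bot (hx : BUlt x) : x ⊥ = ⊥ := by
  have h := hx.cut ⊥ ⊥
  rw [bot_inf_eq] at h
  rw [← h]
  congr 1
  funext n
  simp [T.cut]

lemma top (hx : BUlt x) : x ⊤ = ⊤ := by
  rw [← compl_bot, hx.compl, hx.bot, compl_bot]

lemma const (hx : BUlt x) (p : B) : x (T.cut p ⊤) = p := by
  rw [hx.cut, hx.top, inf_top_eq]

lemma of_fin (hx : BUlt x) {a : ℕ → B} (h : T.fin a = ⊤) : x a = ⊥ := by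
  have := hx.fin a
  rw [h, top_le_iff] at this
  rw [← compl_compl (x a), this, compl_top]

lemma le_of_diff_fin (hx : BUlt x) {a b : ℕ → B} (h : T.fin (a \ b) = ⊤) : x a ≤ x b := by
  have h1 : a ≤ b ⊔ a \ b := by rw [sup_sdiff_self_right]; exact le_sup_right
  refine (hx.mono h1).trans ?_
  rw [hx.sup, hx.of_fin h, sup_bot_eq]

lemma fin_eq_bot (hx : BUlt x) {a : ℕ → B} (h : x a = ⊤) : T.fin a = ⊥ := by
  have := hx.fin a
  rwa [h, compl_top, le_bot_iff] at this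

end BUlt

end Pool.Agent.Lib.MP_c5d73d_lc.T
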