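import Pool.Agent.Lib.MP_c5d73d_lc.T.Seq

/-!
# The core of the typed argument
-/

universe u

open Cardinal Set Filter

namespace Pool.Agent.Lib.MP_c5d73d_lc.T

variable {B : Type u} [CompleteBooleanAlgebra B]

/-- The core of the argument. `M` is the class of measurable functions `Λ → B`; `F` is a proper
countably complete filter on `Λ`, saturated with respect to `M`; `U` is a filter of reals which
meets every tall P-ideal; `A α ∈ U` with witnesses `x α i`. -/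
theorem core (hAD : ADStatement.{u}) (hP : PseudoStatement.{u}) {κ : Cardinal.{u}} (hκ : ℵ₀ < κ)
    (hB : CCC B) (hMA : TypedMA κ B)
    {Λ : Type u} (F : Filter Λ) [F.NeBot] [CountableInterFilter F] (M : Set (Λ → B))
    (hMc : ∀ S ∈ M, Sᶜ ∈ M) (hMs : ∀ 𝒜 : Set (Λ → B), 𝒜.Countable → 𝒜 ⊆ M → sSup 𝒜 ∈ M)
    (hsat : ∀ 𝒜 : Set (Λ → B), (∀ S ∈ 𝒜, S ∈ M ∧ ¬ ∀ᶠ α in F, S α = ⊥) →
      𝒜.Pairwise (fun S T => ∀ᶠ α in F, S α ⊓ T α = ⊥) → 𝒜.Countable)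
    (U : Set (ℕ → B)) (hU2 : ∀ a ∈ U, ∀ b ∈ U, a ⊓ b ∈ U)
    (hU3 : ∀ a ∈ U, fin a ≠ ⊤) (hU : ∀ J : Set (ℕ → B), BTPI J → ∃ a ∈ J, a ∈ U)
    (R : Λ → Set (ℕ → B)) (hR : ∀ b : ℕ → B, ∀ᶠ α in F, b ∈ R α)
    (A : Λ → ℕ → B) (hA : ∀ α, A α ∈ U) (x : Λ → ℕ → (ℕ → B) → B) (hxU : ∀ α i, BUlt (x α i))
    (hx : ∀ α, ∀ b ∈ R α, (⨅ i, (x α i b)ᶜ) ≤ fin (A α ⊓ b))
    (hmeas : ∀ (b : ℕ → B) (i : ℕ), (fun α => x α i b) ∈ M) : False := by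
  classical
  let val : ℕ → (ℕ → B) → Λ → B := fun i b α => x α i b
  let I : Set (Λ → B) := {S | ∀ᶠ α in F, S α = ⊥}
  have Imono : ∀ S ∈ I, ∀ T, T ≤ S → T ∈ I := fun S hS T hT =>
    Eventually.mono hS fun α h => le_bot_iff.1 ((hT α).trans h.le)
  have Isup : ∀ S ∈ I, ∀ T ∈ I, S ⊔ T ∈ I := fun S hS T hT => by
    filter_upwards [hS, hT] with α h1 h2
    rw [Pi.sup_apply, h1, h2, sup_bot_eq]
  have Ibot : (⊥ : Λ → B) ∈ I := Eventually.of_forall fun α => rfl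
  have IsSup : ∀ 𝒜 : Set (Λ → B), 𝒜.Countable → (∀ S ∈ 𝒜, S ∈ I) → sSup 𝒜 ∈ I := by
    intro 𝒜 hc h
    have h1 : ∀ᶠ α in F, ∀ S ∈ 𝒜, S α = ⊥ := (eventually_countable_ball hc).2 h
    filter_upwards [h1] with α h2
    rw [sSup_apply]
    refine le_bot_iff.1 (iSup_le fun S => (h2 S.1 S.2).le)
  have hMinf : ∀ S ∈ M, ∀ T ∈ M, S ⊓ T ∈ M := by
    intro S hS T hT
    have h1 : S ⊓ T = (sSup {Sᶜ, Tᶜ})ᶜ := by
      rw [sSup_pair, compl_sup, compl_compl, compl_compl]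
    rw [h1]
    refine hMc _ (hMs _ (by simp) ?_)
    rintro _ (rfl | rfl)
    · exact hMc _ hS
    · exact hMc _ hT
  have hsat' : ∀ 𝒜 : Set (Λ → B), (∀ S ∈ 𝒜, S ∈ M ∧ S ∉ I) →
      𝒜.Pairwise (fun S T => S ⊓ T ∈ I) → 𝒜.Countable := hsat
  -- the functions on which the ultrafilters are avoided by a tall P-ideal
  let C : ℕ → Set (Λ → B) := fun i =>
    {S | (S ∈ M ∧ S ∉ I) ∧ ∃ J : Set (ℕ → B), BTPI J ∧ ∀ a ∈ J, S ⊓ val i a ∈ I}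
  have h1 : ∀ i, ∃ 𝒜 : Set (Λ → B), 𝒜 ⊆ C i ∧ 𝒜.Countable ∧
      ∀ b ∈ C i, (∀ a ∈ 𝒜, a ⊓ b ∈ I ∧ b ⊓ a ∈ I) → b ∈ 𝒜 := fun i =>
    exists_max_antichain (C i) (fun A B => A ⊓ B ∈ I)
      (fun 𝒜 h1 h2 => hsat' 𝒜 (fun A hA => (h1 hA).1) h2)
  choose 𝒜 h𝒜C h𝒜 hmax using h1
  let Z : ℕ → Λ → B := fun i => sSup (𝒜 i)
  have hZmeas : ∀ i, Z i ∈ M := fun i => hMs _ (h𝒜 i) fun S hS => ((h𝒜C i) hS).1.1
  have hJ : ∀ p : ℕ × (Λ → B), ∃ J : Set (ℕ → B), BTPI J ∧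
      (p.2 ∈ 𝒜 p.1 → ∀ a ∈ J, p.2 ⊓ val p.1 a ∈ I) := by
    intro p
    by_cases hp : p.2 ∈ 𝒜 p.1
    · obtain ⟨J, hJ, h⟩ := ((h𝒜C p.1) hp).2
      exact ⟨J, hJ, fun _ => h⟩
    · exact ⟨Set.univ, btpi_univ, fun h => absurd h hp⟩
  choose J hJT hJI using hJ
  have hcount : {p : ℕ × (Λ → B) | p.2 ∈ 𝒜 p.1}.Countable := by
    have : {p : ℕ × (Λ → B) | p.2 ∈ 𝒜 p.1} ⊆ ⋃ i, (fun S => (i, S)) '' 𝒜 i := by
      rintro ⟨i, S⟩ hS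
      exact mem_iUnion.2 ⟨i, S, hS, rfl⟩
    exact (countable_iUnion fun i => (h𝒜 i).image _).mono this
  obtain ⟨D, hDJ, hDU⟩ := hU _ (btpi_biInter hP hκ hB hMA _ hcount J fun p _ => hJT p)
  have hDZ : ∀ i, Z i ⊓ val i D ∈ I := by
    intro i
    have h2 : Z i ⊓ val i D = sSup ((fun S => S ⊓ val i D) '' 𝒜 i) := by
      rw [sSup_image, ← sSup_inf_eq]
    rw [h2]
    refine IsSup _ ((h𝒜 i).image _) ?_
    rintro _ ⟨S, hS, rfl⟩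
    exact hJI (i, S) hS D (mem_iInter₂.1 hDJ (i, S) hS)
  -- the ideal `N`
  let N : Set (ℕ → B) := {b | ∀ i, (Z i)ᶜ ⊓ val i b ∈ I}
  have hval_fin : ∀ i (b : ℕ → B), fin b = ⊤ → val i b = ⊥ := by
    intro i b hb
    funext α
    exact (hxU α i).of_fin hb
  have hval_mono : ∀ i (a b : ℕ → B), a ≤ b → val i a ≤ val i b := fun i a b h α =>
    (hxU α i).mono h
  have hNfin : ∀ b : ℕ → B, fin b = ⊤ → b ∈ N := by
    intro b hb i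
    rw [hval_fin i b hb, inf_bot_eq]
    exact Ibot
  have hNmono : ∀ b ∈ N, ∀ b', b' ≤ b → b' ∈ N := fun b hb b' h i =>
    Imono _ (hb i) _ (inf_le_inf_left _ (hval_mono i _ _ h))
  have hNsup : ∀ b ∈ N, ∀ b' ∈ N, b ⊔ b' ∈ N := by
    intro b hb b' hb' i
    refine Imono _ (Isup _ (hb i) _ (hb' i)) _ ?_
    intro α
    change (Z i)ᶜ α ⊓ x α i (b ⊔ b') ≤ ((Z i)ᶜ α ⊓ x α i b) ⊔ ((Z i)ᶜ α ⊓ x α i b')
    rw [(hxU α i).sup, inf_sup_left]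
  have hNglue : ∀ (S : Set B) (a : ℕ → B), (∀ p ∈ S, cut p a ∈ N) → cut (sSup S) a ∈ N := by
    intro S a ha i
    obtain ⟨S₀, hS₀, hS₀c, hsup⟩ := hB.exists_countable_sSup S
    have h3 : ∀ᶠ α in F, ∀ p ∈ S₀, ((Z i)ᶜ ⊓ val i (cut p a)) α = ⊥ :=
      (eventually_countable_ball hS₀c).2 fun p hp => ha p (hS₀ hp) i
    filter_upwards [h3] with α h4
    change (Z i)ᶜ α ⊓ x α i (cut (sSup S) a) = ⊥
    rw [(hxU α i).cut, ← hsup, ← inf_assoc, inf_comm ((Z i)ᶜ α), inf_assoc, sSup_inf_eq]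
    refine le_bot_iff.1 (iSup₂_le fun p hp => ?_)
    have h5 := h4 p hp
    change (Z i)ᶜ α ⊓ x α i (cut p a) = ⊥ at h5
    rw [(hxU α i).cut] at h5
    rw [← h5]
    exact le_inf (inf_le_right.trans inf_le_left) (le_inf inf_le_left
      (inf_le_right.trans inf_le_right))
  have hNcc : ∀ ℬ : Set (ℕ → B), (∀ b ∈ ℬ, b ∉ N) → ℬ.Pairwise (fun a b => a ⊓ b ∈ N) →
      ℬ.Countable := by
    intro ℬ hℬ hpw
    have h3 : ∀ i, {b ∈ ℬ | (Z i)ᶜ ⊓ val i b ∉ I}.Countable := by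
      intro i
      have hkey : ∀ b ∈ ℬ, ∀ b' ∈ ℬ, b ≠ b' →
          ((Z i)ᶜ ⊓ val i b) ⊓ ((Z i)ᶜ ⊓ val i b') ∈ I := by
        intro b hb b' hb' hne
        refine Imono _ (hpw hb hb' hne i) _ ?_
        intro α
        change ((Z i)ᶜ α ⊓ x α i b) ⊓ ((Z i)ᶜ α ⊓ x α i b') ≤ (Z i)ᶜ α ⊓ x α i (b ⊓ b')
        rw [(hxU α i).inf]
        exact le_inf (inf_le_left.trans inf_le_left)
          (le_inf (inf_le_left.trans inf_le_right) (inf_le_right.trans inf_le_right))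
      refine Set.countable_of_injective_of_countable_image
        (f := fun b => (Z i)ᶜ ⊓ val i b) ?_ (hsat' _ ?_ ?_)
      · intro b hb b' hb' heq
        by_contra hne
        have h4 := hkey b hb.1 b' hb'.1 hne
        change (Z i)ᶜ ⊓ val i b = (Z i)ᶜ ⊓ val i b' at heq
        rw [← heq, inf_idem] at h4
        exact hb.2 h4
      · rintro _ ⟨b, hb, rfl⟩
        exact ⟨hMinf _ (hMc _ (hZmeas i)) _ (hmeas b i), hb.2⟩
      · rintro _ ⟨b, hb, rfl⟩ _ ⟨b', hb', rfl⟩ hne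
        exact hkey b hb.1 b' hb'.1 fun h => hne (h ▸ rfl)
    refine (countable_iUnion h3).mono ?_
    intro b hb
    have h4 : ¬ ∀ i, (Z i)ᶜ ⊓ val i b ∈ I := hℬ b hb
    push Not at h4
    obtain ⟨i, hi⟩ := h4
    exact mem_iUnion.2 ⟨i, hb, hi⟩
  have hNJ : ∀ J : Set (ℕ → B), BTPI J → ∃ a ∈ J, aᶜ ∈ N := by
    intro J hJ
    let C' : ℕ → Set (Λ → B) := fun i =>
      {T | (T ∈ M ∧ T ∉ I) ∧ ∃ a ∈ J, T ≤ (Z i)ᶜ ⊓ val i a}
    have h5 : ∀ i, ∃ 𝒯 : Set (Λ → B), 𝒯 ⊆ C' i ∧ 𝒯.Countable ∧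
        ∀ b ∈ C' i, (∀ a ∈ 𝒯, a ⊓ b ∈ I ∧ b ⊓ a ∈ I) → b ∈ 𝒯 := fun i =>
      exists_max_antichain (C' i) (fun A B => A ⊓ B ∈ I)
        (fun 𝒜 h1 h2 => hsat' 𝒜 (fun A hA => (h1 hA).1) h2)
    choose 𝒯 h𝒯C h𝒯 hmax' using h5
    have h6 : ∀ p : ℕ × (Λ → B), ∃ a ∈ J, p.2 ∈ 𝒯 p.1 → p.2 ≤ (Z p.1)ᶜ ⊓ val p.1 a := by
      intro p
      by_cases hp : p.2 ∈ 𝒯 p.1
      · obtain ⟨a, ha, h⟩ := ((h𝒯C p.1) hp).2
        exact ⟨a, ha, fun _ => h⟩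
      · exact ⟨⊥, hJ.fin _ fin_bot, fun h => absurd h hp⟩
    choose a haJ ha using h6
    have hcount' : (insert ⊥ (a '' {p : ℕ × (Λ → B) | p.2 ∈ 𝒯 p.1})).Countable := by
      have : {p : ℕ × (Λ → B) | p.2 ∈ 𝒯 p.1} ⊆ ⋃ i, (fun S => (i, S)) '' 𝒯 i := by
        rintro ⟨i, S⟩ hS
        exact mem_iUnion.2 ⟨i, S, hS, rfl⟩
      exact (((countable_iUnion fun i => (h𝒯 i).image _).mono this).image a).insert _
    obtain ⟨f, hf⟩ := hcount'.exists_eq_range (insert_nonempty _ _)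
    obtain ⟨c, hcJ, hc⟩ := hJ.pp f (by
      intro n
      have : f n ∈ insert ⊥ (a '' {p : ℕ × (Λ → B) | p.2 ∈ 𝒯 p.1}) := hf ▸ mem_range_self n
      rcases this with h | ⟨p, -, h⟩
      · rw [h]; exact hJ.fin _ fin_bot
      · rw [← h]; exact haJ p)
    refine ⟨c, hcJ, fun i => ?_⟩
    by_contra hT0
    set T0 : Λ → B := (Z i)ᶜ ⊓ val i cᶜ with hT0def
    have hT0m : T0 ∈ M := hMinf _ (hMc _ (hZmeas i)) _ (hmeas _ i)
    have hT0C : T0 ∉ C i := by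
      intro h
      have h8 : ∀ S ∈ 𝒜 i, S ⊓ T0 = ⊥ := by
        intro S hS
        refine le_bot_iff.1 ?_
        have h9 : S ≤ Z i := le_sSup hS
        calc S ⊓ T0 ≤ Z i ⊓ (Z i)ᶜ := inf_le_inf h9 inf_le_left
          _ = ⊥ := inf_compl_self _
      have h7 : T0 ∈ 𝒜 i := hmax i T0 h fun S hS =>
        ⟨(h8 S hS) ▸ Ibot, by rw [inf_comm, h8 S hS]; exact Ibot⟩
      apply hT0
      have h9 := h8 T0 h7
      rw [inf_idem] at h9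
      rw [h9]
      exact Ibot
    have h10 : ∃ b ∈ J, T0 ⊓ val i b ∉ I := by
      by_contra hcon
      push Not at hcon
      exact hT0C ⟨⟨hT0m, hT0⟩, J, hJ, hcon⟩
    obtain ⟨b, hbJ, hb⟩ := h10
    have h11 : T0 ⊓ val i b ∈ C' i :=
      ⟨⟨hMinf _ hT0m _ (hmeas b i), hb⟩, b, hbJ, inf_le_inf_right _ inf_le_left⟩
    have h12 : ∀ T ∈ 𝒯 i, T ⊓ (T0 ⊓ val i b) = ⊥ := by
      intro T hT
      have h14 : fin (a (i, T) \ c) = ⊤ := by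
        have : a (i, T) ∈ range f := hf ▸ mem_insert_of_mem _ ⟨(i, T), hT, rfl⟩
        obtain ⟨n, hn⟩ := this
        rw [← hn]
        exact hc n
      funext α
      refine le_bot_iff.1 ?_
      have h13 : T α ≤ x α i (a (i, T)) := (ha (i, T) hT α).trans inf_le_right
      have h15 : x α i (a (i, T)) ≤ x α i c := (hxU α i).le_of_diff_fin h14
      calc T α ⊓ ((Z i)ᶜ α ⊓ x α i cᶜ ⊓ x α i b) ≤ x α i c ⊓ (x α i c)ᶜ := by
            refine inf_le_inf (h13.trans h15) ?_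
            rw [← (hxU α i).compl]
            exact inf_le_left.trans inf_le_right
        _ = ⊥ := inf_compl_self _
    have h16 : T0 ⊓ val i b ∈ 𝒯 i := hmax' i _ h11 fun T hT =>
      ⟨(h12 T hT) ▸ Ibot, by rw [inf_comm, h12 T hT]; exact Ibot⟩
    apply hb
    have h17 := h12 _ h16
    rw [inf_idem] at h17
    rw [h17]
    exact Ibot
  -- the sequence `Q`
  obtain ⟨Q, hQN, hQU⟩ : ∃ Q : ℕ → ℕ → B, (∀ n, Q n ∈ N) ∧
      ∀ b : ℕ → B, b ∈ U → ∃ n, fin (b ⊓ Q n) ≠ ⊤ := by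
    by_cases h : ∃ b ∈ N, b ∈ U
    · obtain ⟨b, hbN, hbU⟩ := h
      exact ⟨fun _ => b, fun _ => hbN, fun b' hb' => ⟨0, hU3 _ (hU2 _ hb' _ hbU)⟩⟩
    · push Not at h
      obtain ⟨Q, hQ1, hQ2⟩ := exists_seq_of_ccc hAD N hNfin hNmono hNsup hNglue hNcc hNJ
      exact ⟨Q, hQ1, fun b hb => hQ2 b fun hbN => h b hbN hb⟩
  -- a good index
  have h20 : ∀ n i, ∀ᶠ α in F, x α i (Q n ⊓ D) = ⊥ := by
    intro n i
    filter_upwards [hDZ i, hQN n i] with α h1 h2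
    change Z i α ⊓ x α i D = ⊥ at h1
    change (Z i)ᶜ α ⊓ x α i (Q n) = ⊥ at h2
    refine le_bot_iff.1 ?_
    rw [(hxU α i).inf]
    calc x α i (Q n) ⊓ x α i D
        = (Z i α ⊔ (Z i α)ᶜ) ⊓ (x α i (Q n) ⊓ x α i D) := by rw [sup_compl_eq_top, top_inf_eq]
      _ ≤ (Z i α ⊓ x α i D) ⊔ ((Z i)ᶜ α ⊓ x α i (Q n)) := by
          rw [inf_sup_right]
          exact sup_le_sup (inf_le_inf_left _ inf_le_right) (inf_le_inf_left _ inf_le_left)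
      _ ≤ ⊥ := by rw [h1, h2, sup_bot_eq]
  have h22 : ∀ᶠ α in F, (∀ n, Q n ⊓ D ∈ R α) ∧ ∀ n i, x α i (Q n ⊓ D) = ⊥ :=
    (eventually_countable_forall.2 fun n => hR _).and
      (eventually_countable_forall.2 fun n => eventually_countable_forall.2 fun i => h20 n i)
  obtain ⟨α, hα1, hα2⟩ := h22.exists
  obtain ⟨n, hn⟩ := hQU (A α ⊓ D) (hU2 _ (hA α) _ hDU)
  apply hn
  have h23 := hx α (Q n ⊓ D) (hα1 n)
  simp only [hα2, compl_bot, iInf_top, top_le_iff] at h23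
  refine fin_top_of_le ?_ h23
  exact le_inf (inf_le_left.trans inf_le_left) (le_inf inf_le_right
    (inf_le_left.trans inf_le_right))

end Pool.Agent.Lib.MP_c5d73d_lc.T
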