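import Pool.Agent.Lib.MP_c5d73d_lc.T.Basic

/-!
# Countable intersections of `B`-valued tall P-ideals; the ideal of a small family of reals
-/

universe u

open Cardinal Set

namespace Pool.Agent.Lib.MP_c5d73d_lc.T

variable {B : Type u} [CompleteBooleanAlgebra B]

lemma cut_eq_inf (p : B) (a : ℕ → B) : cut p a = cut p ⊤ ⊓ a := by
  funext n
  change p ⊓ a n = p ⊓ ⊤ ⊓ a n
  rw [inf_top_eq]

/-- Countable intersections of tall P-ideals are tall P-ideals. -/
lemma btpi_iInter (hP : PseudoStatement.{u}) {κ : Cardinal.{u}} (hκ : ℵ₀ < κ) (hB : CCC B)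
    (hMA : TypedMA κ B) (J : ℕ → Set (ℕ → B)) (h : ∀ i, BTPI (J i)) : BTPI (⋂ i, J i) where
  fin a ha := mem_iInter.2 fun i => (h i).fin a ha
  mono a ha b hb := mem_iInter.2 fun i => (h i).mono a (mem_iInter.1 ha i) b hb
  sup a ha b hb := mem_iInter.2 fun i => (h i).sup a (mem_iInter.1 ha i) b (mem_iInter.1 hb i)
  glue S a ha := mem_iInter.2 fun i => (h i).glue S a fun p hp => mem_iInter.1 (ha p hp) i
  tall X := by
    choose g hgJ hgle hgfin using fun i => (h i).tall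
    let Y : ℕ → ℕ → B := fun n => Nat.rec (g 0 X) (fun n Yn => g (n + 1) Yn) n
    have hYJ : ∀ n, Y n ∈ J n := by
      intro n
      cases n with
      | zero => exact hgJ _ _
      | succ n => exact hgJ _ _
    have hYX : ∀ n, Y n ≤ X ∧ T.fin (Y n) ≤ T.fin X := by
      intro n
      induction n with
      | zero => exact ⟨hgle 0 X, hgfin 0 X⟩
      | succ n ih => exact ⟨(hgle (n + 1) (Y n)).trans ih.1, (hgfin (n + 1) (Y n)).trans ih.2⟩
    have hYanti : Antitone Y := antitone_nat_of_succ_le fun n => hgle (n + 1) (Y n)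
    set q := T.fin X with hq
    let A : ULift.{u} ℕ → ℕ → B := fun n => Y n.down ⊔ cut q ⊤
    obtain ⟨Z, hZ, hZA⟩ := hP κ hκ B hB hMA (ULift.{u} ℕ) (by simpa using hκ) A (by
      classical
      intro s
      -- the infimum contains `Y k ⊔ cut q ⊤` for some `k`
      have h1 : ∃ k, Y k ⊔ cut q ⊤ ≤ s.inf A := by
        induction s using Finset.induction_on with
        | empty => exact ⟨0, by simp⟩
        | insert i s _ ih =>
          obtain ⟨k, hk⟩ := ih
          refine ⟨max i.down k, ?_⟩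
          rw [Finset.inf_insert]
          refine le_inf (sup_le_sup_right (hYanti (le_max_left _ _)) _)
            (le_trans (sup_le_sup_right (hYanti (le_max_right _ _)) _) hk)
      obtain ⟨k, hk⟩ := h1
      refine le_bot_iff.1 ((fin_anti hk).trans ?_)
      rw [fin_sup, fin_const_top]
      exact (inf_le_inf_right _ (hYX k).2).trans (by rw [inf_compl_self]))
    -- the pseudo-intersection
    have hZY : ∀ n, T.fin (cut qᶜ (Z \ Y n)) = ⊤ := by
      intro n
      refine fin_top_of_le ?_ (hZA ⟨n⟩)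
      intro m
      change qᶜ ⊓ (Z m \ Y n m) ≤ Z m \ (Y n m ⊔ q ⊓ ⊤)
      rw [inf_top_eq, _root_.sdiff_eq, _root_.sdiff_eq, compl_sup]
      exact le_inf (inf_le_right.trans inf_le_left)
        (le_inf (inf_le_right.trans inf_le_right) inf_le_left)
    let b : ℕ → B := cut qᶜ (Z ⊓ X) ⊔ cut q X
    have hqX : T.fin (cut q X) = ⊤ := by
      rw [fin_cut, ← hq, sup_comm, sup_compl_eq_top]
    refine ⟨b, mem_iInter.2 fun i => (h i).sup _ ?_ _ ((h i).fin _ hqX), ?_, ?_⟩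
    · refine (h i).of_diff_fin (hYJ i) (fin_top_of_le ?_ (hZY i))
      intro m
      change (qᶜ ⊓ (Z m ⊓ X m)) \ Y i m ≤ qᶜ ⊓ (Z m \ Y i m)
      rw [_root_.sdiff_eq, _root_.sdiff_eq]
      exact le_inf (inf_le_left.trans inf_le_left)
        (le_inf ((inf_le_left.trans inf_le_right).trans inf_le_left) inf_le_right)
    · refine sup_le (fun m => inf_le_right.trans inf_le_right) (cut_le _ _)
    · -- `fin b ≤ q`
      have h1 : T.fin (cut qᶜ (Z \ X)) = ⊤ := fin_top_of_le (cut_mono fun m => by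
        change Z m \ X m ≤ Z m \ Y 0 m
        exact sdiff_le_sdiff_left ((hYX 0).1 m)) (hZY 0)
      have h2 : T.fin (cut qᶜ Z) ≤ q := by
        rw [fin_cut, hZ, sup_bot_eq, compl_compl]
      have h3 : cut qᶜ Z ≤ cut qᶜ (Z ⊓ X) ⊔ cut qᶜ (Z \ X) := by
        rw [← cut_sup, sup_inf_sdiff]
      have h4 := fin_anti h3
      rw [fin_sup, h1, inf_top_eq] at h4
      exact ((fin_anti le_sup_left).trans h4).trans h2
  pp f hf := by
    have h1 : ∀ i, ∃ b ∈ J i, ∀ n, T.fin (f n \ b) = ⊤ := fun i =>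
      (h i).pp f fun n => mem_iInter.1 (hf n) i
    choose b hbJ hb using h1
    obtain ⟨C, hC1, hC2⟩ := interpolate f b (fun m n => hb n m)
    exact ⟨C, mem_iInter.2 fun i => (h i).of_diff_fin (hbJ i) (hC2 i), hC1⟩

lemma btpi_biInter (hP : PseudoStatement.{u}) {κ : Cardinal.{u}} (hκ : ℵ₀ < κ) (hB : CCC B)
    (hMA : TypedMA κ B) {ι : Type*} (s : Set ι) (hs : s.Countable) (J : ι → Set (ℕ → B))
    (h : ∀ i ∈ s, BTPI (J i)) : BTPI (⋂ i ∈ s, J i) := by
  rcases s.eq_empty_or_nonempty with rfl | hne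
  · simpa using btpi_univ
  · obtain ⟨f, rfl⟩ := hs.exists_eq_range hne
    rw [biInter_range]
    exact btpi_iInter hP hκ hB hMA _ fun n => h _ (mem_range_self n)

/-- The ideal attached to a family `R` of reals. -/
def JR (R : Set (ℕ → B)) : Set (ℕ → B) :=
  {a | ∃ E : Set ((ℕ → B) → B), E.Countable ∧ (∀ x ∈ E, BUlt x) ∧
    ∀ b ∈ R, ⨅ x ∈ E, (x b)ᶜ ≤ fin (a ⊓ b)}

/-- A union of finite sets, corrected by dominating finite sets, is finite. -/
lemma fin_iSup_sdiff (F G : ℕ → ℕ → B) (hF : ∀ n, fin (F n) = ⊤)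
    (hG : (⨆ N : ℕ, ⨅ n, ⨅ (_ : N ≤ n), ⨅ m, F n m ⇨ G n m) = ⊤) :
    fin (⨆ n, F n \ G n) = ⊤ := by
  refine top_le_iff.1 ?_
  rw [← hG]
  refine iSup_le fun N => ?_
  rw [le_fin_iff]
  refine fin_top_of_le (b := (Finset.range N).sup F) ?_ (fin_finset_sup _ _ fun n _ => hF n)
  intro m
  rw [cut_apply, iSup_apply, inf_iSup_eq]
  refine iSup_le fun n => ?_
  by_cases hn : n < N
  · have h1 : F n ≤ (Finset.range N).sup F := Finset.le_sup (Finset.mem_range.2 hn)
    exact (inf_le_right.trans sdiff_le).trans (h1 m)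
  · refine le_trans ?_ bot_le
    have h1 : (⨅ n, ⨅ (_ : N ≤ n), ⨅ m, F n m ⇨ G n m) ≤ F n m ⇨ G n m :=
      iInf_le_of_le n (iInf_le_of_le (not_lt.1 hn) (iInf_le _ m))
    rw [Pi.sdiff_apply, _root_.sdiff_eq]
    calc (⨅ n, ⨅ (_ : N ≤ n), ⨅ m, F n m ⇨ G n m) ⊓ (F n m ⊓ (G n m)ᶜ)
        ≤ ((F n m ⇨ G n m) ⊓ F n m) ⊓ (G n m)ᶜ := by
          rw [inf_assoc]; exact inf_le_inf_right _ h1
      _ ≤ G n m ⊓ (G n m)ᶜ := inf_le_inf_right _ himp_inf_le
      _ = ⊥ := inf_compl_self _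

/-- The ideal of a family of size less than `κ` is a tall P-ideal. -/
theorem btpi_JR (hP : PseudoStatement.{u}) (hD : DomStatement.{u}) (hU : UltStatement.{u})
    {κ : Cardinal.{u}} (hκ : ℵ₀ < κ) (hB : CCC B) (hMA : TypedMA κ B)
    (R : Set (ℕ → B)) (hR : #R < κ) : BTPI (JR R) where
  fin a ha := ⟨∅, countable_empty, by simp, fun b _ => by
    rw [fin_top_of_le inf_le_left ha]; exact le_top⟩
  mono a ha b hb := by
    obtain ⟨E, hE, hEU, hEb⟩ := ha
    exact ⟨E, hE, hEU, fun c hc => (hEb c hc).trans (fin_anti (inf_le_inf_right _ hb))⟩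
  sup a ha b hb := by
    obtain ⟨E, hE, hEU, hEb⟩ := ha
    obtain ⟨E', hE', hEU', hEb'⟩ := hb
    refine ⟨E ∪ E', hE.union hE', ?_, fun c hc => ?_⟩
    · rintro x (hx | hx)
      · exact hEU x hx
      · exact hEU' x hx
    · rw [inf_sup_right, fin_sup, iInf_union]
      exact inf_le_inf (hEb c hc) (hEb' c hc)
  glue S a ha := by
    choose! E hE hEU hEb using ha
    obtain ⟨S₀, hS₀, hS₀c, hsup⟩ := hB.exists_countable_sSup S
    refine ⟨⋃ p ∈ S₀, E p, hS₀c.biUnion fun p hp => hE p (hS₀ hp), ?_, fun b hb => ?_⟩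
    · intro x hx
      obtain ⟨p, hp, hxp⟩ := mem_iUnion₂.1 hx
      exact hEU p (hS₀ hp) x hxp
    · rw [cut_inf, fin_cut, ← hsup]
      have h1 : ∀ p ∈ S₀, (⨅ x ∈ ⋃ p ∈ S₀, E p, (x b)ᶜ) ≤ pᶜ ⊔ fin (a ⊓ b) := by
        intro p hp
        have h2 := hEb p (hS₀ hp) b hb
        rw [cut_inf, fin_cut] at h2
        refine le_trans ?_ h2
        exact le_iInf₂ fun x hx => iInf₂_le x (mem_iUnion₂.2 ⟨p, hp, hx⟩)
      have h3 : (⨅ x ∈ ⋃ p ∈ S₀, E p, (x b)ᶜ) ≤ ⨅ p ∈ S₀, (pᶜ ⊔ fin (a ⊓ b)) := le_iInf₂ h1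
      refine h3.trans ?_
      rw [compl_sSup]
      simp only [← iInf_sup_eq]
      rfl
  tall X := by
    set q := T.fin X with hq
    obtain ⟨V, hV, hVX⟩ := hU B {X ⊔ cut q ⊤} (by simp) (by
      rintro a rfl
      rw [fin_sup, fin_const_top, ← hq, inf_compl_self])
    have hVX' : V (X ⊔ cut q ⊤) = ⊤ := hVX _ rfl
    let A : Option R → ℕ → B := fun c => match c with
      | none => X ⊔ cut q ⊤
      | some b => b.1ᶜ ⊔ cut (V b.1) ⊤
    have hAV : ∀ c, V (A c) = ⊤ := by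
      rintro (_ | b)
      · exact hVX'
      · change V (b.1ᶜ ⊔ cut (V b.1) ⊤) = ⊤
        rw [hV.sup, hV.compl, hV.const, compl_sup_eq_top]
    have hcard : #(Option R) < κ := by
      rw [mk_option]
      exact add_lt_of_lt hκ.le hR (one_lt_aleph0.trans hκ)
    obtain ⟨Z, hZ, hZA⟩ := hP κ hκ B hB hMA (Option R) hcard A (by
      classical
      intro s
      apply hV.fin_eq_bot
      induction s using Finset.induction_on with
      | empty => rw [Finset.inf_empty, hV.top]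
      | insert i s _ ih => rw [Finset.inf_insert, hV.inf, ih, hAV, top_inf_eq])
    refine ⟨Z ⊓ X, ⟨{V}, countable_singleton V, by simpa using hV, fun b hb => ?_⟩,
      inf_le_right, ?_⟩
    · rw [iInf_singleton, le_fin_iff]
      refine fin_top_of_le ?_ (hZA (some ⟨b, hb⟩))
      intro m
      change (V b)ᶜ ⊓ (Z m ⊓ X m ⊓ b m) ≤ Z m \ ((b m)ᶜ ⊔ V b ⊓ ⊤)
      rw [_root_.sdiff_eq, inf_top_eq, compl_sup, compl_compl]
      exact le_inf (inf_le_right.trans (inf_le_left.trans inf_le_left))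
        (le_inf (inf_le_right.trans inf_le_right) inf_le_left)
    · have h1 : T.fin (cut qᶜ (Z \ X)) = ⊤ := by
        refine fin_top_of_le ?_ (hZA none)
        intro m
        change qᶜ ⊓ (Z m \ X m) ≤ Z m \ (X m ⊔ q ⊓ ⊤)
        rw [_root_.sdiff_eq, _root_.sdiff_eq, inf_top_eq, compl_sup]
        exact le_inf (inf_le_right.trans inf_le_left)
          (le_inf (inf_le_right.trans inf_le_right) inf_le_left)
      have h2 : T.fin (cut qᶜ Z) ≤ q := by
        rw [fin_cut, hZ, sup_bot_eq, compl_compl]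
      have h3 : cut qᶜ Z ≤ cut qᶜ (Z ⊓ X) ⊔ cut qᶜ (Z \ X) := by
        rw [← cut_sup, sup_inf_sdiff]
      have h4 := fin_anti h3
      rw [fin_sup, h1, inf_top_eq] at h4
      exact ((fin_anti (cut_le _ _)).trans h4).trans h2
  pp f hf := by
    choose E hE hEU hEb using hf
    let q : R → B := fun b => ⨅ x ∈ ⋃ n, E n, (x b.1)ᶜ
    let F : R → ℕ → ℕ → B := fun b n => cut (q b) (f n ⊓ b.1)
    have hF : ∀ b n, T.fin (F b n) = ⊤ := by
      intro b n
      rw [← le_fin_iff]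
      refine le_trans ?_ (hEb n b.1 b.2)
      exact le_iInf₂ fun x hx => iInf₂_le x (mem_iUnion.2 ⟨n, hx⟩)
    obtain ⟨G, hG, hGF⟩ := hD κ hκ B hB hMA R hR F hF
    refine ⟨⨆ n, f n \ G n, ⟨⋃ n, E n, countable_iUnion hE, ?_, ?_⟩, fun n => ?_⟩
    · intro x hx
      obtain ⟨n, hn⟩ := mem_iUnion.1 hx
      exact hEU n x hn
    · intro b hb
      change q ⟨b, hb⟩ ≤ _
      rw [le_fin_iff]
      refine fin_top_of_le ?_ (fin_iSup_sdiff (F ⟨b, hb⟩) G (hF ⟨b, hb⟩) (hGF ⟨b, hb⟩))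
      intro m
      rw [cut_apply, Pi.inf_apply, iSup_apply, iSup_apply, iSup_inf_eq, inf_iSup_eq]
      refine iSup_mono fun n => ?_
      change q ⟨b, hb⟩ ⊓ ((f n m \ G n m) ⊓ b m) ≤ (q ⟨b, hb⟩ ⊓ (f n m ⊓ b m)) \ G n m
      rw [_root_.sdiff_eq, _root_.sdiff_eq]
      exact le_inf (le_inf inf_le_left (le_inf (inf_le_right.trans (inf_le_left.trans inf_le_left))
        (inf_le_right.trans inf_le_right))) (inf_le_right.trans (inf_le_left.trans inf_le_right))
    · refine fin_top_of_le ?_ (hG n)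
      rw [sdiff_le_iff, sup_comm, ← sdiff_le_iff]
      exact le_iSup (fun n => f n \ G n) n

/-- A member of the ideal has a sequence of witnesses. -/
lemma exists_seq_of_mem_JR (hU : UltStatement.{u}) {R : Set (ℕ → B)} {a : ℕ → B}
    (ha : a ∈ JR R) : ∃ x : ℕ → (ℕ → B) → B, (∀ i, BUlt (x i)) ∧
      ∀ b ∈ R, (⨅ i, (x i b)ᶜ) ≤ fin (a ⊓ b) := by
  obtain ⟨E, hE, hEU, hEb⟩ := ha
  obtain ⟨V, hV, -⟩ := hU B ∅ (by simp) (by simp)
  obtain ⟨x, hx⟩ := (hE.insert V).exists_eq_range (insert_nonempty V E)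
  have hxU : ∀ i, BUlt (x i) := by
    intro i
    have : x i ∈ insert V E := hx ▸ mem_range_self i
    rcases this with h | h
    · rw [h]; exact hV
    · exact hEU _ h
  refine ⟨x, hxU, fun b hb => le_trans (le_iInf₂ fun y hy => ?_) (hEb b hb)⟩
  obtain ⟨i, rfl⟩ : y ∈ range x := hx ▸ mem_insert_of_mem V hy
  exact iInf_le _ i

end Pool.Agent.Lib.MP_c5d73d_lc.T
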