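import Pool.Agent.Lib.MP_c5d73d_lc.T.Core

/-!
# The typed covering theorem for a weakly compact cardinal
-/

universe u

open Cardinal Set Filter

namespace Pool.Agent.Lib.MP_c5d73d_lc.T

/-- `κ^ω ≤ κ` for inaccessible `κ`. -/
lemma inaccessible_pow {κ : Cardinal.{u}} (h : κ.IsInaccessible) : κ ^ (ℵ₀ : Cardinal.{u}) ≤ κ := by
  let K := κ.ord.ToType
  have hK : #K = κ := mk_ord_toType κ
  have h1 : #(ULift.{u} ℕ × K) = κ := by
    rw [mk_prod, lift_id, lift_id, mk_uLift, mk_nat, lift_aleph0, hK]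
    exact aleph0_mul_eq h.aleph0_lt.le
  have h2 := mk_subset_mk_lt_cof (α := ULift.{u} ℕ × K) (by rw [h1]; exact h.isStrongPrelimit)
  rw [h1] at h2
  have h3 : κ ^ (ℵ₀ : Cardinal.{u}) = #(ULift.{u} ℕ → K) := by
    rw [← Cardinal.power_def, hK, mk_uLift, mk_nat, lift_aleph0]
  rw [h3]
  refine le_trans ?_ h2.le
  refine mk_le_of_injective (f := fun f : ULift.{u} ℕ → K =>
    (⟨range fun n => (n, f n), ?_⟩ : {s : Set (ULift.{u} ℕ × K) // #s < κ.ord.cof})) ?_
  · refine (mk_range_le.trans ?_).trans_lt (h.aleph0_lt.trans_le h.le_cof_ord)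
    rw [mk_uLift, mk_nat, lift_aleph0]
  · intro f g hfg
    funext n
    have h4 : (n, f n) ∈ range fun n => (n, g n) := by
      have := congrArg Subtype.val hfg
      change (range fun n => (n, f n)) = range fun n => (n, g n) at this
      rw [← this]
      exact mem_range_self n
    obtain ⟨m, hm⟩ := h4
    have h5 : m = n := congrArg Prod.fst hm
    have h6 : g m = f n := congrArg Prod.snd hm
    rw [← h6, h5]

lemma aleph_one_lt {κ : Cardinal.{u}} (h : κ.IsInaccessible) : ℵ₁ < κ := by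
  rw [← succ_aleph0]
  exact (Order.succ_le_of_lt (cantor ℵ₀)).trans_lt (h.isStrongPrelimit h.aleph0_lt)

/-- Arities of the operations generating the measurable functions. -/
def arity (G : Type u) : G ⊕ ULift.{u} Bool → Type u
  | Sum.inl _ => PEmpty
  | Sum.inr ⟨false⟩ => PUnit
  | Sum.inr ⟨true⟩ => ULift.{u} ℕ

/-- Evaluation of terms. -/
def evalT {G : Type u} {X : Type u} [CompleteBooleanAlgebra X] (g : G → X) :
    WType (arity G) → X
  | ⟨Sum.inl a, _⟩ => g a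
  | ⟨Sum.inr ⟨false⟩, f⟩ => (evalT g (f PUnit.unit))ᶜ
  | ⟨Sum.inr ⟨true⟩, f⟩ => ⨆ n : ULift.{u} ℕ, evalT g (f n)

/-- The measurable functions generated by `κ` many functions form a class of size `≤ κ`. -/
lemma exists_class {κ : Cardinal.{u}} (hκ : κ ^ (ℵ₀ : Cardinal.{u}) ≤ κ) (hκ0 : ℵ₀ ≤ κ)
    {X : Type u} [CompleteBooleanAlgebra X] {G : Type u} (hG : #G ≤ κ) (g : G → X)
    (hbot : ⊥ ∈ range g) :
    ∃ M : Set X, #M ≤ κ ∧ (∀ a, g a ∈ M) ∧ (∀ S ∈ M, Sᶜ ∈ M) ∧
      ∀ 𝒜 : Set X, 𝒜.Countable → 𝒜 ⊆ M → sSup 𝒜 ∈ M := by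
  refine ⟨range (evalT g), mk_range_le.trans ?_, ?_, ?_, ?_⟩
  · refine WType.cardinalMk_le_of_le ?_
    refine (Cardinal.sum_le_sum _ (fun _ => κ) ?_).trans ?_
    · rintro (a | ⟨_ | _⟩)
      · change κ ^ #PEmpty ≤ κ
        rw [mk_pempty, power_zero]
        exact one_le_aleph0.trans hκ0
      · change κ ^ #PUnit ≤ κ
        rw [mk_punit, power_one]
      · change κ ^ #(ULift.{u} ℕ) ≤ κ
        rwa [mk_uLift, mk_nat, lift_aleph0]
    · rw [sum_const, lift_id, lift_id, mk_sum, lift_id, lift_id]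
      refine (mul_le_mul_left (add_le_of_le hκ0 hG ?_) κ).trans (mul_eq_self hκ0).le
      refine le_trans ?_ hκ0
      rw [mk_uLift, mk_bool]
      simp
  · intro a
    exact ⟨⟨Sum.inl a, PEmpty.elim⟩, rfl⟩
  · rintro _ ⟨t, rfl⟩
    exact ⟨⟨Sum.inr ⟨false⟩, fun _ => t⟩, rfl⟩
  · intro 𝒜 h𝒜 hsub
    rcases 𝒜.eq_empty_or_nonempty with rfl | hne
    · obtain ⟨a, ha⟩ := hbot
      refine ⟨⟨Sum.inl a, PEmpty.elim⟩, ?_⟩
      rw [sSup_empty]
      exact ha
    · obtain ⟨f, rfl⟩ := h𝒜.exists_eq_range hne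
      choose t ht using fun n => hsub (mem_range_self n)
      refine ⟨⟨Sum.inr ⟨true⟩, fun n => t n.down⟩, ?_⟩
      change (⨆ n : ULift.{u} ℕ, evalT g (t n.down)) = _
      simp only [ht]
      rw [sSup_range]
      exact le_antisymm (iSup_le fun n => le_iSup f n.down)
        (iSup_le fun n => le_iSup (fun n : ULift.{u} ℕ => f n.down) ⟨n⟩)

/-- The typed covering theorem. -/
theorem typed (hAD : ADStatement.{u}) (hP : PseudoStatement.{u}) (hD : DomStatement.{u})
    (hUlt : UltStatement.{u}) : TypedStatement.{u} := by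
  classical
  intro κ hκ B _ hB hcard hMA U hU1 hU2 hU3
  by_contra hcon
  have hU : ∀ J : Set (ℕ → B), BTPI J → ∃ a ∈ J, a ∈ U := by
    intro J hJ
    by_contra hno
    push Not at hno
    exact hcon ⟨J, hJ, hno⟩
  have hinacc := hκ.inaccessible
  have hκ0 : ℵ₀ < κ := hinacc.aleph0_lt
  have hpow := inaccessible_pow hinacc
  let K := κ.ord.ToType
  have hK : #K = κ := mk_ord_toType κ
  have hreals : #(ℕ → B) ≤ κ := by
    refine le_trans ?_ hpow
    have : #(ℕ → B) = #B ^ (ℵ₀ : Cardinal.{u}) := by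
      rw [mk_arrow, lift_uzero, mk_nat, lift_aleph0]
    rw [this]
    exact power_le_power_right hcard
  obtain ⟨r, hr⟩ : ∃ r : K → (ℕ → B), Function.Surjective r := by
    rw [← hK] at hreals
    obtain ⟨e⟩ := hreals
    exact ⟨Function.invFun e, Function.invFun_surjective e.injective⟩
  let R : K → Set (ℕ → B) := fun α => r '' Iio α
  have hRcard : ∀ α, #(R α) < κ := fun α => mk_image_le.trans_lt (mk_Iio_toType_ord_lt α)
  have h1 : ∀ α, ∃ a ∈ JR (R α), a ∈ U := fun α =>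
    hU _ (btpi_JR hP hD hUlt hκ0 hB hMA _ (hRcard α))
  choose A hAJ hAU using h1
  choose x hxU hx using fun α => exists_seq_of_mem_JR hUlt (hAJ α)
  -- the class of measurable functions
  obtain ⟨M, hMcard, hMg, hMc, hMs⟩ := exists_class (X := K → B) (G := (ℕ → B) × ULift.{u} ℕ)
    hpow hκ0.le (by
      rw [mk_prod, lift_id, lift_id, mk_uLift, mk_nat, lift_aleph0]
      exact (mul_le_mul' hreals le_rfl).trans (mul_aleph0_eq hκ0.le).le)
    (fun p α => x α p.2.down p.1) ⟨(⊥, ⟨0⟩), by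
      funext α
      exact (hxU α 0).bot⟩
  -- the filter
  obtain ⟨F, hne, hci, hsmall, hdec⟩ := hκ.filter K hK ((fun S : K → B => {α | S α = ⊥}) '' M)
    (mk_image_le.trans hMcard)
  have hcif : CountableInterFilter F := CardinalInterFilter.toCountableInterFilter F hκ0
  refine core hAD hP hκ0 hB hMA F M hMc hMs ?_ U hU2 hU3 hU R ?_ A hAU x hxU hx
    fun b i => hMg (b, ⟨i⟩)
  · -- saturation
    intro 𝒜 h𝒜 hpw
    by_contra hunc
    have h2 : ℵ₁ ≤ #𝒜 := by
      rw [← succ_aleph0]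
      refine Order.succ_le_of_lt ?_
      rw [← not_le, le_aleph0_iff_set_countable]
      exact hunc
    obtain ⟨𝒜₁, h𝒜₁, hcard₁⟩ := le_mk_iff_exists_subset.1 h2
    have hlt : #𝒜₁ < κ := hcard₁ ▸ aleph_one_lt hinacc
    have h3 : ∀ᶠ α in F, ∀ S : 𝒜₁, S.1 α ≠ ⊥ := by
      refine (eventually_cardinal_forall (c := κ) hlt).2 fun S => ?_
      obtain ⟨hSM, hS⟩ := h𝒜 S.1 (h𝒜₁ S.2)
      rcases hdec _ ⟨S.1, hSM, rfl⟩ with h4 | h4
      · exact absurd h4 hS
      · exact h4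
    have h4 : ∀ᶠ α in F, ∀ p : 𝒜₁ × 𝒜₁, p.1 ≠ p.2 → p.1.1 α ⊓ p.2.1 α = ⊥ := by
      refine (eventually_cardinal_forall (c := κ) ?_).2 fun p => ?_
      · rw [mk_prod, lift_id]
        exact mul_lt_of_lt hκ0.le hlt hlt
      · by_cases hp : p.1 = p.2
        · exact Eventually.of_forall fun α h => absurd hp h
        · have h5 := hpw (h𝒜₁ p.1.2) (h𝒜₁ p.2.2) (fun h => hp (Subtype.ext h))
          filter_upwards [h5] with α h6 _
          exact h6
    obtain ⟨α, hα1, hα2⟩ := (h3.and h4).exists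
    have hinj : Function.Injective fun S : 𝒜₁ => S.1 α := by
      intro S T hST
      by_contra hne'
      have h5 := hα2 (S, T) hne'
      change S.1 α ⊓ T.1 α = ⊥ at h5
      change S.1 α = T.1 α at hST
      rw [← hST, inf_idem] at h5
      exact hα1 S h5
    have h6 : (range fun S : 𝒜₁ => S.1 α).Countable := by
      refine hB _ ?_ ?_
      · rintro _ ⟨S, rfl⟩
        exact hα1 S
      · rintro _ ⟨S, rfl⟩ _ ⟨T, rfl⟩ hne'
        exact hα2 (S, T) fun h => hne' (congrArg (fun S : 𝒜₁ => S.1 α) h)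
    have h7 : Countable 𝒜₁ := by
      have := h6.to_subtype
      exact (Equiv.ofInjective _ hinj).injective.countable
    have h8 : #𝒜₁ ≤ ℵ₀ := mk_le_aleph0_iff.2 h7
    rw [hcard₁] at h8
    exact not_lt.2 h8 aleph0_lt_aleph_one
  · -- exhaustion
    intro b
    obtain ⟨ξ, rfl⟩ := hr b
    have h2 : {α | r ξ ∈ R α}ᶜ ⊆ insert ξ (Iio ξ) := by
      intro α hα
      have h3 : α ≤ ξ := by
        by_contra h
        exact hα ⟨ξ, not_le.1 h, rfl⟩
      rcases h3.lt_or_eq with h4 | h4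
      · exact mem_insert_of_mem _ h4
      · exact h4 ▸ mem_insert _ _
    have h3 : #({α | r ξ ∈ R α}ᶜ : Set K) < κ := by
      refine (mk_le_mk_of_subset h2).trans_lt (mk_insert_le.trans_lt ?_)
      exact add_lt_of_lt hκ0.le (mk_Iio_toType_ord_lt _) (one_lt_aleph0.trans hκ0)
    have h4 := hsmall _ h3
    rwa [compl_compl] at h4

end Pool.Agent.Lib.MP_c5d73d_lc.T
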