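import Pool.Agent.Lib.MP_c5d73d_lc.T.Ideals

/-!
# The key lemma on ideals of reals with countable chain condition
-/

universe u

open Cardinal Set

namespace Pool.Agent.Lib.MP_c5d73d_lc.T

variable {B : Type u} [CompleteBooleanAlgebra B]

/-- The key lemma: if `N` is an ideal with a countable chain condition such that every tall
P-ideal has a member with complement in `N`, then there is a sequence in `N` such that every
real outside of `N` has infinite intersection with a term of the sequence. -/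
theorem exists_seq_of_ccc (hAD : ADStatement.{u}) (N : Set (ℕ → B))
    (hfin : ∀ a : ℕ → B, fin a = ⊤ → a ∈ N)
    (hmono : ∀ a ∈ N, ∀ b, b ≤ a → b ∈ N) (hsup : ∀ a ∈ N, ∀ b ∈ N, a ⊔ b ∈ N)
    (hglue : ∀ (S : Set B) (a : ℕ → B), (∀ p ∈ S, cut p a ∈ N) → cut (sSup S) a ∈ N)
    (hcc : ∀ 𝒜 : Set (ℕ → B), (∀ a ∈ 𝒜, a ∉ N) → 𝒜.Pairwise (fun a b => a ⊓ b ∈ N) →
      𝒜.Countable)
    (hN : ∀ J : Set (ℕ → B), BTPI J → ∃ a ∈ J, aᶜ ∈ N) :
    ∃ Q : ℕ → ℕ → B, (∀ n, Q n ∈ N) ∧ ∀ b, b ∉ N → ∃ n, fin (b ⊓ Q n) ≠ ⊤ := by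
  classical
  let W : Set (ℕ → B) := {b | b ∉ N ∧ ∃ Q : ℕ → ℕ → B, (∀ n, Q n ∈ N) ∧
    ∀ b', b' ≤ b → b' ∉ N → ∃ n, fin (b' ⊓ Q n) ≠ ⊤}
  have hdense : ∀ b, b ∉ N → ∃ b' ∈ W, b' ≤ b := by
    intro b hb
    by_contra hcon
    push Not at hcon
    -- the ideal attached to `b`
    have hTPI : BTPI {a : ℕ → B | a ⊓ b ∈ N} := by
      refine ⟨fun a ha => hfin _ (fin_top_of_le inf_le_left ha), fun a ha a' ha' =>
        hmono _ ha _ (inf_le_inf_right _ ha'), fun a ha a' ha' => ?_, fun S a ha => ?_, ?_, ?_⟩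
      · change (a ⊔ a') ⊓ b ∈ N
        rw [inf_sup_right]
        exact hsup _ ha _ ha'
      · change cut (sSup S) a ⊓ b ∈ N
        rw [cut_inf]
        refine hglue S _ fun p hp => ?_
        rw [← cut_inf]
        exact ha p hp
      · intro X
        obtain ⟨a, ha, hdisj⟩ := hAD B X
        have h4 : ∃ t, a t ⊓ b ∈ N := by
          by_contra hno
          push Not at hno
          have hinj : Function.Injective fun t => a t ⊓ b := by
            intro t s hts
            by_contra hne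
            refine hno t (hfin _ ?_)
            have h5 : a t ⊓ b ≤ a t ⊓ a s := by
              refine le_inf inf_le_left ?_
              change a t ⊓ b = a s ⊓ b at hts
              rw [hts]
              exact inf_le_left
            exact fin_top_of_le h5 (hdisj t s hne)
          have h6 : (range fun t => a t ⊓ b).Countable := by
            refine hcc _ ?_ ?_
            · rintro _ ⟨t, rfl⟩
              exact hno t
            · rintro _ ⟨t, rfl⟩ _ ⟨s, rfl⟩ hne
              refine hfin _ (fin_top_of_le ?_ (hdisj t s fun h => hne (h ▸ rfl)))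
              exact inf_le_inf inf_le_left inf_le_left
          have h7 : Countable (ℕ → Bool) := by
            have := h6.to_subtype
            exact (Equiv.ofInjective _ hinj).injective.countable
          have h8 : #(ℕ → Bool) ≤ ℵ₀ := Cardinal.mk_le_aleph0_iff.2 h7
          have h9 : #(ℕ → Bool) = 𝔠 := by
            rw [← Cardinal.power_def, mk_bool, mk_nat, two_power_aleph0]
          rw [h9] at h8
          exact not_lt.2 h8 aleph0_lt_continuum
        obtain ⟨t, ht⟩ := h4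
        exact ⟨a t, ht, (ha t).1, (ha t).2⟩
      · intro f hf
        let Q : ℕ → ℕ → B := fun n => f n ⊓ b
        have hQN : ∀ n, Q n ∈ N := hf
        obtain ⟨𝒟, h𝒟C, h𝒟, hmax⟩ := exists_max_antichain
          {D : ℕ → B | D ∉ N ∧ D ≤ b ∧ ∀ n, fin (D ⊓ Q n) = ⊤} (fun a b => a ⊓ b ∈ N)
          (fun 𝒜 h1 h2 => hcc 𝒜 (fun A hA => (h1 hA).1) h2)
        obtain ⟨D, hD1, hD2⟩ := separate 𝒟 h𝒟 Q fun D hD n => (h𝒟C hD).2.2 n
        have hBD : b \ D ∈ N := by
          by_contra hBD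
          have h1 : b \ D ∉ W := fun h => hcon _ h sdiff_le
          have h2 : ¬ ∃ Q : ℕ → ℕ → B, (∀ n, Q n ∈ N) ∧
              ∀ b', b' ≤ b \ D → b' ∉ N → ∃ n, fin (b' ⊓ Q n) ≠ ⊤ := fun h => h1 ⟨hBD, h⟩
          push Not at h2
          obtain ⟨b', hb'D, hb'N, hb'⟩ := h2 Q hQN
          have hb'D2 : ∀ E : ℕ → B, E ⊓ b' ≤ E \ D := fun E => by
            rw [_root_.sdiff_eq]
            refine inf_le_inf_left _ (hb'D.trans ?_)
            rw [_root_.sdiff_eq]
            exact inf_le_right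
          have h3 : b' ∈ 𝒟 := by
            refine hmax b' ⟨hb'N, hb'D.trans sdiff_le, fun n => hb' n⟩ ?_
            intro E hE
            have h4 : fin (E ⊓ b') = ⊤ := fin_top_of_le (hb'D2 E) (hD1 E hE)
            exact ⟨hfin _ h4, hfin _ (by rwa [inf_comm])⟩
          refine hb'N (hfin _ (fin_top_of_le ?_ (hD1 b' h3)))
          have := hb'D2 b'
          rwa [inf_idem] at this
        refine ⟨(D ⊓ b)ᶜ, ?_, fun n => ?_⟩
        · refine hmono _ hBD _ ?_
          rw [compl_inf, inf_sup_right, compl_inf_self, sup_bot_eq, inf_comm, ← _root_.sdiff_eq]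
        · refine fin_top_of_le ?_ (hD2 n)
          rw [_root_.sdiff_eq, compl_compl]
          exact le_inf (inf_le_right.trans inf_le_left)
            (le_inf inf_le_left (inf_le_right.trans inf_le_right))
    obtain ⟨a, ha, haN⟩ := hN _ hTPI
    refine hb (hmono _ (hsup _ ha _ haN) _ ?_)
    rw [sup_comm, sup_inf_left, compl_sup_eq_top, top_inf_eq]
    exact le_sup_right
  obtain ⟨𝒲, h𝒲C, h𝒲, hmax⟩ := exists_max_antichain W (fun a b => a ⊓ b ∈ N)
    (fun 𝒜 h1 h2 => hcc 𝒜 (fun A hA => (h1 hA).1) h2)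
  have hmeet : ∀ b, b ∉ N → ∃ E ∈ 𝒲, b ⊓ E ∉ N := by
    intro b hb
    by_contra hcon
    push Not at hcon
    obtain ⟨b', hb'W, hb'b⟩ := hdense b hb
    have h1 : b' ∈ 𝒲 := hmax b' hb'W (fun E hE =>
      ⟨hmono _ (hcon E hE) _ (le_inf (inf_le_right.trans hb'b) inf_le_left),
        hmono _ (hcon E hE) _ (inf_le_inf_right _ hb'b)⟩)
    exact hb'W.1 (hmono _ (hcon b' h1) _ (le_inf hb'b le_rfl))
  rcases 𝒲.eq_empty_or_nonempty with rfl | hne
  · refine ⟨fun _ => ⊥, fun _ => hfin _ fin_bot, fun b hb => ?_⟩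
    obtain ⟨E, hE, -⟩ := hmeet b hb
    exact absurd hE (notMem_empty E)
  · obtain ⟨g, rfl⟩ := h𝒲.exists_eq_range hne
    have h1 : ∀ m, ∃ Q : ℕ → ℕ → B, (∀ n, Q n ∈ N) ∧
        ∀ b', b' ≤ g m → b' ∉ N → ∃ n, fin (b' ⊓ Q n) ≠ ⊤ := fun m =>
      (h𝒲C (mem_range_self m)).2
    choose Q hQN hQ using h1
    refine ⟨fun k => Q (Nat.unpair k).1 (Nat.unpair k).2, fun k => hQN _ _, fun b hb => ?_⟩
    obtain ⟨_, ⟨m, rfl⟩, hm⟩ := hmeet b hb
    obtain ⟨n, hn⟩ := hQ m _ inf_le_right hm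
    refine ⟨Nat.pair m n, fun h => hn ?_⟩
    have h2 : fin (b ⊓ Q m n) = ⊤ := by simpa [Nat.unpair_pair] using h
    exact fin_top_of_le (inf_le_inf_right _ inf_le_left) h2

end Pool.Agent.Lib.MP_c5d73d_lc.T
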